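import Pool.Agent.Lib.MP_9c5702_nt.TP.Defs

/-! A determinant with rows in the filtration. -/

set_option autoImplicit false

namespace Pool.Agent.Lib.MP_9c5702_nt.TP

open MvPolynomial Pool.Agent.Lib.MP_9c5702_nt.Q4 Pool.Agent.Lib.MP_9c5702_nt.QB
  Pool.Agent.Lib.MP_9c5702_nt.QS Pool.Agent.Lib.MP_9c5702_nt.GL

lemma det_span {R ι : Type} [CommRing R] [Fintype ι] [DecidableEq ι] (s : ι → Set (ι → R))
    (h : ∀ G : Matrix ι ι R, (∀ r, G r ∈ s r) → G.det = 0) (H : Matrix ι ι R)
    (hH : ∀ r, H r ∈ Submodule.span R (s r)) : H.det = 0 := by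
  have key : ∀ T : Finset ι, ∀ G : Matrix ι ι R, (∀ r ∈ T, G r ∈ Submodule.span R (s r)) →
      (∀ r, r ∉ T → G r ∈ s r) → G.det = 0 := by
    intro T
    induction T using Finset.induction_on with
    | empty => exact fun G _ h2 => h G fun r => h2 r (by simp)
    | insert a T ha ih =>
      intro G h1 h2
      have h3 : ∀ x ∈ Submodule.span R (s a), (G.updateRow a x).det = 0 := by
        intro x hx
        induction hx using Submodule.span_induction with
        | mem x hx =>
          refine ih _ (fun r hr => ?_) fun r hr => ?_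
          · rw [Matrix.updateRow_ne (by rintro rfl; exact ha hr : r ≠ a)]
            exact h1 r (Finset.mem_insert_of_mem hr)
          · by_cases e : r = a
            · rw [e, Matrix.updateRow_self]
              exact hx
            · rw [Matrix.updateRow_ne e]
              exact h2 r (by simp [e, hr])
        | zero => exact Matrix.det_eq_zero_of_row_eq_zero a fun c => by simp
        | add x y _ _ k1 k2 => rw [Matrix.det_updateRow_add, k1, k2, add_zero]
        | smul c x _ k1 => rw [Matrix.det_updateRow_smul, k1, mul_zero]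
      have h4 := h3 (G a) (h1 a (Finset.mem_insert_self _ _))
      rwa [Matrix.updateRow_eq_self] at h4
  exact key Finset.univ H (fun r _ => hH r) fun r hr => absurd (Finset.mem_univ r) hr

theorem det_fil {R ι : Type} [CommRing R] [Fintype ι] [DecidableEq ι] (π : R) (a b N : ℕ)
    (hN : π ^ N = 0) (u τ : ι → R) (e J : ι → ℕ) (H : Matrix ι ι R)
    (hH : ∀ r, H r ∈ Fil π a b u τ (e r) (J r))
    (hc : ∀ i j κ : ι → ℕ, (∀ r, J r ≤ i r + j r + 2 * κ r) →
      Function.Injective (fun r => (j r, e r + 3 * κ r)) →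
      N ≤ ∑ r, (a * i r + a * j r + b * κ r)) :
    H.det = 0 := by
  refine det_span (fun r => {x | ∃ i j κ : ℕ, J r ≤ i + j + 2 * κ ∧
    x = π ^ (a * i + a * j + b * κ) • (u ^ j * τ ^ (e r + 3 * κ))}) ?_ H hH
  intro G hG
  choose i j κ h1 h2 using hG
  have e1 : G = Matrix.of fun r c => π ^ (a * i r + a * j r + b * κ r) *
      (Matrix.of fun r c => u c ^ j r * τ c ^ (e r + 3 * κ r)) r c := by
    ext r c
    rw [h2 r]
    simp
  rw [e1, Matrix.det_mul_column]
  by_cases hinj : Function.Injective fun r => (j r, e r + 3 * κ r)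
  · rw [Finset.prod_pow_eq_pow_sum, pow_eq_zero_of_le (hc i j κ h1 hinj) hN, zero_mul]
  · obtain ⟨r, r', h3, h4⟩ := Function.not_injective_iff.1 hinj
    rw [Matrix.det_zero_of_row_eq h4, mul_zero]
    ext c
    simp only [Matrix.of_apply]
    rw [(Prod.mk.inj h3).1, (Prod.mk.inj h3).2]

end Pool.Agent.Lib.MP_9c5702_nt.TP
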