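import Pool.Agent.Lib.MP_9c5702_nt.TP.Defs

/-! Reduction to the standard monomials. -/

set_option autoImplicit false

namespace Pool.Agent.Lib.MP_9c5702_nt.TP

open MvPolynomial Pool.Agent.Lib.MP_9c5702_nt.Q4 Pool.Agent.Lib.MP_9c5702_nt.QB
  Pool.Agent.Lib.MP_9c5702_nt.QS Pool.Agent.Lib.MP_9c5702_nt.GL

theorem mn_mul {R K : Type} [CommRing R] [CommRing K] [Algebra R K] {A U T : K} {d d' : ℕ}
    {x y : K} (hx : x ∈ Mn R A U T d) (hy : y ∈ Mn R A U T d') :
    x * y ∈ Mn R A U T (d + d') := by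
  induction hx using Submodule.span_induction with
  | mem x hx =>
    induction hy using Submodule.span_induction with
    | mem y hy =>
      obtain ⟨i, j, k, h1, rfl⟩ := hx
      obtain ⟨i', j', k', h2, rfl⟩ := hy
      exact Submodule.subset_span ⟨i + i', j + j', k + k', by omega, by ring⟩
    | zero => rw [mul_zero]; exact Submodule.zero_mem _
    | add y z _ _ h1 h2 => rw [mul_add]; exact Submodule.add_mem _ h1 h2
    | smul c y _ h1 => rw [mul_smul_comm]; exact Submodule.smul_mem _ c h1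
  | zero => rw [zero_mul]; exact Submodule.zero_mem _
  | add x z _ _ h1 h2 => rw [add_mul]; exact Submodule.add_mem _ h1 h2
  | smul c x _ h1 => rw [smul_mul_assoc]; exact Submodule.smul_mem _ c h1

theorem mn_mono {R K : Type} [CommRing R] [CommRing K] [Algebra R K] {A U T : K} {d d' : ℕ}
    (h : d ≤ d') : Mn R A U T d ≤ Mn R A U T d' := by
  refine Submodule.span_mono ?_
  rintro x ⟨i, j, k, h1, rfl⟩
  exact ⟨i, j, k, h1.trans h, rfl⟩

theorem mn_pow {R K : Type} [CommRing R] [CommRing K] [Algebra R K] {A U T : K} {x : K}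
    (hx : x ∈ Mn R A U T 1) (k : ℕ) : x ^ k ∈ Mn R A U T k := by
  induction k with
  | zero => exact Submodule.subset_span ⟨0, 0, 0, by omega, by simp⟩
  | succ k ih =>
    rw [pow_succ]
    exact mn_mul ih hx

theorem mn_std {R K : Type} [CommRing R] [CommRing K] [Algebra R K] (π : R) (N : ℕ)
    (hN : π ^ N = 0) (A U T : K) (c0 c1 q1 q2 q3 r1 r2 r3 r4 : R)
    (h : A ^ 2 * T = c0 • (1 : K) + (π * c1) • A ^ 3 + q1 • (A * U ^ 2) + q2 • (A * U * T) +
      q3 • (A * T ^ 2) + r1 • U ^ 3 + r2 • (U ^ 2 * T) + r3 • (U * T ^ 2) + r4 • T ^ 3)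
    (D : ℕ) :
    Mn R A U T D ≤ Submodule.span R (Set.range fun r : Low D => std A U T r.1) := by
  obtain ⟨St, hSt⟩ : ∃ St, St = Submodule.span R (Set.range fun r : Low D => std A U T r.1) :=
    ⟨_, rfl⟩
  obtain ⟨Q, hQ⟩ : ∃ Q : Submodule R K,
      Q = St ⊔ (Mn R A U T D).map (LinearMap.lsmul R K π) := ⟨_, rfl⟩
  have hl : St ≤ Q := hQ ▸ le_sup_left
  have hr : ∀ y ∈ Mn R A U T D, π • y ∈ Q := fun y hy =>
    hQ ▸ Submodule.mem_sup_right (Submodule.mem_map.2 ⟨y, hy, rfl⟩)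
  have h1 : ∀ i j k : ℕ, i + j + k ≤ D → A ^ i * U ^ j * T ^ k ∈ Q := by
    intro i
    induction i using Nat.strong_induction_on with
    | _ i ih =>
      intro j k hd
      rcases k with _ | k
      · refine hl (hSt ▸ Submodule.subset_span ⟨⟨(i, j, 0), mem_Low.2 ⟨by simp, ?_⟩⟩, ?_⟩)
        · simpa [dg] using hd
        · simp [std]
      by_cases hi : i ≤ 1
      · refine hl (hSt ▸ Submodule.subset_span ⟨⟨(k, j, i + 1), mem_Low.2 ⟨?_, ?_⟩⟩, ?_⟩)
        · simpa using hi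
        · simp only [dg]
          omega
        · simp [std]
      obtain ⟨i, rfl⟩ : ∃ i', i = i' + 2 := ⟨i - 2, by omega⟩
      have e : A ^ (i + 2) * U ^ j * T ^ (k + 1) = c0 • (A ^ i * U ^ j * T ^ k) +
          π • c1 • (A ^ (i + 3) * U ^ j * T ^ k) + q1 • (A ^ (i + 1) * U ^ (j + 2) * T ^ k) +
          q2 • (A ^ (i + 1) * U ^ (j + 1) * T ^ (k + 1)) +
          q3 • (A ^ (i + 1) * U ^ j * T ^ (k + 2)) + r1 • (A ^ i * U ^ (j + 3) * T ^ k) +
          r2 • (A ^ i * U ^ (j + 2) * T ^ (k + 1)) + r3 • (A ^ i * U ^ (j + 1) * T ^ (k + 2)) +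
          r4 • (A ^ i * U ^ j * T ^ (k + 3)) := by
        simp only [Algebra.smul_def, map_mul] at h ⊢
        linear_combination (A ^ i * U ^ j * T ^ k) * h
      rw [e]
      refine Q.add_mem (Q.add_mem (Q.add_mem (Q.add_mem (Q.add_mem (Q.add_mem (Q.add_mem
        (Q.add_mem ?_ ?_) ?_) ?_) ?_) ?_) ?_) ?_) ?_
      · exact Q.smul_mem _ (ih _ (by omega) _ _ (by omega))
      · exact hr _ (Submodule.smul_mem _ _
          (Submodule.subset_span ⟨i + 3, j, k, by omega, rfl⟩))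
      all_goals exact Q.smul_mem _ (ih _ (by omega) _ _ (by omega))
  have h2 : Mn R A U T D ≤ Q := by
    refine Submodule.span_le.2 ?_
    rintro x ⟨i, j, k, hd, rfl⟩
    exact h1 i j k hd
  have h3 : ∀ m : ℕ, ∀ x ∈ Mn R A U T D, ∃ s ∈ St, ∃ y ∈ Mn R A U T D, x = s + π ^ m • y := by
    intro m
    induction m with
    | zero => exact fun x hx => ⟨0, St.zero_mem, x, hx, by simp⟩
    | succ m ih =>
      intro x hx
      obtain ⟨s, hs, y, hy, rfl⟩ := ih x hx
      have h4 := h2 hy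
      rw [hQ] at h4
      obtain ⟨s', hs', z, hz, rfl⟩ := Submodule.mem_sup.1 h4
      obtain ⟨y', hy', rfl⟩ := Submodule.mem_map.1 hz
      refine ⟨s + π ^ m • s', St.add_mem hs (St.smul_mem _ hs'), y', hy', ?_⟩
      rw [LinearMap.lsmul_apply, smul_add, smul_smul, ← pow_succ, add_assoc]
  intro x hx
  obtain ⟨s, hs, y, _, rfl⟩ := h3 N x hx
  rw [hN, zero_smul, add_zero, ← hSt]
  exact hs

end Pool.Agent.Lib.MP_9c5702_nt.TP
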