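import Pool.Agent.Lib.MP_9c5702_nt.TP.Fil
import Pool.Agent.Lib.MP_9c5702_nt.TP.Std
import Pool.Agent.Lib.MP_9c5702_nt.TP.Det

/-! The determinant vanishes over a ring with a nilpotent prime. -/

set_option autoImplicit false

namespace Pool.Agent.Lib.MP_9c5702_nt.TP

open MvPolynomial Pool.Agent.Lib.MP_9c5702_nt.Q4 Pool.Agent.Lib.MP_9c5702_nt.QB
  Pool.Agent.Lib.MP_9c5702_nt.QS Pool.Agent.Lib.MP_9c5702_nt.GL

theorem alg_det {R : Type} [CommRing R] (π : R) (a b N D : ℕ) (ha : 1 ≤ a) (hab : 2 * a ≤ b)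
    (hN : π ^ N = 0) (hc : Cn a b D N) (x0 y0 z0 x1 z1 ν : R) (hx : x1 * x0 = 1)
    (hz : z1 * z0 = 1) (A τ U V : Low D → R) (hτ : ∀ i, A i * τ i = 1)
    (X : Fin 3 → Low D → R)
    (hX : ∀ k, (∀ i, X k i = A i) ∨ (∀ i, x0 * X k i = y0 * A i + 3 * (π ^ a * U i)) ∨
      ∀ i, x0 * X k i = z0 * A i + 3 * (π ^ a * V i))
    (hrel : ∀ i, A i ^ 2 * (y0 ^ 2 * (π ^ a * U i) + z0 ^ 2 * (π ^ a * V i)) =
      π ^ b * ν * (x0 ^ 3 - A i ^ 3) -
        3 * A i * (y0 * (π ^ a * U i) ^ 2 + z0 * (π ^ a * V i) ^ 2) -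
        3 * ((π ^ a * U i) ^ 3 + (π ^ a * V i) ^ 3)) :
    (Matrix.of fun (r : Low D) (i : Low D) =>
      X 0 i ^ r.1.1 * X 1 i ^ r.1.2.1 * X 2 i ^ r.1.2.2).det = 0 := by
  obtain ⟨c, rfl⟩ : ∃ c, b = c + 1 := ⟨b - 1, by omega⟩
  obtain ⟨U', hU'⟩ : ∃ U' : Low D → R, U' = fun i => π ^ a * U i := ⟨_, rfl⟩
  obtain ⟨T, hT⟩ : ∃ T : Low D → R,
      T = fun i => y0 ^ 2 * (π ^ a * U i) + z0 ^ 2 * (π ^ a * V i) := ⟨_, rfl⟩
  have hV : ∀ i, π ^ a * V i = z1 ^ 2 * (T i - y0 ^ 2 * U' i) := by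
    intro i
    rw [hT, hU']
    linear_combination (-(π ^ a * V i) * (z1 * z0 + 1)) * hz
  have mA : A ∈ Mn R A U' T 1 := Submodule.subset_span ⟨1, 0, 0, by omega, by simp⟩
  have mU : U' ∈ Mn R A U' T 1 := Submodule.subset_span ⟨0, 1, 0, by omega, by simp⟩
  have mT : T ∈ Mn R A U' T 1 := Submodule.subset_span ⟨0, 0, 1, by omega, by simp⟩
  have mX : ∀ k, X k ∈ Mn R A U' T 1 := by
    intro k
    rcases hX k with h | h | h
    · rw [show X k = A from funext h]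
      exact mA
    · have e : X k = (x1 * y0) • A + (x1 * 3) • U' := by
        funext i
        simp only [Pi.add_apply, Pi.smul_apply, smul_eq_mul, hU']
        linear_combination x1 * h i - X k i * hx
      rw [e]
      exact Submodule.add_mem _ (Submodule.smul_mem _ _ mA) (Submodule.smul_mem _ _ mU)
    · have e : X k = (x1 * z0) • A + (x1 * 3 * z1 ^ 2) • T + (-(x1 * 3 * z1 ^ 2 * y0 ^ 2)) • U' := by
        funext i
        simp only [Pi.add_apply, Pi.smul_apply, smul_eq_mul]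
        linear_combination x1 * h i - X k i * hx + x1 * 3 * hV i
      rw [e]
      exact Submodule.add_mem _ (Submodule.add_mem _ (Submodule.smul_mem _ _ mA)
        (Submodule.smul_mem _ _ mT)) (Submodule.smul_mem _ _ mU)
  have hstd := mn_std π N hN A U' T (π ^ (c + 1) * ν * x0 ^ 3) (-(π ^ c * ν))
    (-3 * (y0 + z0 * z1 ^ 4 * y0 ^ 4)) (6 * z0 * z1 ^ 4 * y0 ^ 2) (-3 * z0 * z1 ^ 4)
    (-3 * (1 - z1 ^ 6 * y0 ^ 6)) (-9 * z1 ^ 6 * y0 ^ 4) (9 * z1 ^ 6 * y0 ^ 2) (-3 * z1 ^ 6) (by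
      funext i
      have h := hrel i
      have h1 : y0 ^ 2 * (π ^ a * U i) + z0 ^ 2 * (π ^ a * V i) = T i := by rw [hT]
      have h2 : π ^ a * U i = U' i := by rw [hU']
      rw [h1, h2, hV i] at h
      simp only [Pi.add_apply, Pi.smul_apply, Pi.mul_apply, Pi.pow_apply, Pi.one_apply,
        smul_eq_mul]
      linear_combination h) D
  have hrow : ∀ r : Low D, ∃ cf : Low D → R, ∑ r' : Low D, cf r' • std A U' T r'.1 =
      X 0 ^ r.1.1 * X 1 ^ r.1.2.1 * X 2 ^ r.1.2.2 := by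
    intro r
    refine (Submodule.mem_span_range_iff_exists_fun R).1 (hstd ?_)
    exact mn_mono (mem_Low.1 r.2).2
      (mn_mul (mn_mul (mn_pow (mX 0) _) (mn_pow (mX 1) _)) (mn_pow (mX 2) _))
  choose cf hcf using hrow
  have e1 : (Matrix.of fun (r : Low D) (i : Low D) =>
      X 0 i ^ r.1.1 * X 1 i ^ r.1.2.1 * X 2 i ^ r.1.2.2) =
      Matrix.of cf * Matrix.of fun (r : Low D) (i : Low D) => std A U' T r.1 i := by
    ext r i
    have h := congrFun (hcf r) i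
    simp only [Finset.sum_apply, Pi.smul_apply, smul_eq_mul, Pi.mul_apply, Pi.pow_apply] at h
    simp only [Matrix.mul_apply, Matrix.of_apply]
    exact h.symm
  have hθ : T * τ ∈ Fil π a (c + 1) (U * τ) τ 0 2 := by
    refine fil_theta π a (c + 1) N ha hab hN x0 y0 z0 z1 ν hz (U * τ) (V * τ) τ (T * τ) ?_ ?_
    · funext i
      simp only [Pi.add_apply, Pi.smul_apply, Pi.mul_apply, smul_eq_mul, hT]
      ring
    · funext i
      simp only [Pi.add_apply, Pi.sub_apply, Pi.smul_apply, Pi.mul_apply, Pi.pow_apply,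
        Pi.one_apply, smul_eq_mul, hT]
      linear_combination τ i ^ 3 * hrel i +
        (-((y0 ^ 2 * (π ^ a * U i) + z0 ^ 2 * (π ^ a * V i)) * τ i * (A i * τ i + 1)) -
          π ^ (c + 1) * ν * ((A i * τ i) ^ 2 + A i * τ i + 1) -
          3 * (y0 * (π ^ a * U i) ^ 2 + z0 * (π ^ a * V i) ^ 2) * τ i ^ 2) * hτ i
  have hu : U' * τ ∈ Fil π a (c + 1) (U * τ) τ 0 1 := by
    refine Submodule.subset_span ⟨0, 1, 0, by omega, ?_⟩
    funext i
    simp [hU', mul_assoc]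
  have e2 : (Matrix.of fun (r : Low D) (i : Low D) => std A U' T r.1 i) =
      Matrix.of fun (r : Low D) (i : Low D) => A i ^ D *
        (Matrix.of fun (r : Low D) => τ ^ (D - dg r.1) * std 1 (U' * τ) (T * τ) r.1) r i := by
    ext r i
    obtain ⟨e, he⟩ : ∃ e, D = dg r.1 + e := ⟨D - dg r.1, by have := (mem_Low.1 r.2).2; omega⟩
    have h1 : A i ^ D = A i ^ (dg r.1 + e) := congrArg _ he
    have h2 : D - dg r.1 = e := by omega
    have h3 : ∀ m, A i ^ m * τ i ^ m = 1 := fun m => by rw [← mul_pow, hτ i, one_pow]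
    simp only [Matrix.of_apply, h1, h2, std]
    split_ifs with h
    · simp only [Pi.mul_apply, Pi.pow_apply, Pi.one_apply, one_pow, dg, h, pow_add, mul_pow]
      linear_combination (-(A i ^ r.1.1 * U' i ^ r.1.2.1)) * h3 e -
        A i ^ r.1.1 * U' i ^ r.1.2.1 * (A i ^ e * τ i ^ e) * h3 r.1.2.1
    · obtain ⟨l, hl⟩ : ∃ l, r.1.2.2 = l + 1 := ⟨r.1.2.2 - 1, by omega⟩
      have h4 : dg r.1 + e = l + r.1.2.1 + (r.1.1 + 1) + e := by unfold dg; omega
      obtain ⟨k, hk⟩ : ∃ k, k = r.1.1 + 1 := ⟨_, rfl⟩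
      rw [h4, hl, Nat.add_sub_cancel, ← hk]
      simp only [Pi.mul_apply, Pi.pow_apply, Pi.one_apply, one_pow, pow_add, mul_pow]
      linear_combination (-(A i ^ l * U' i ^ r.1.2.1 * T i ^ k)) * h3 e -
        A i ^ l * U' i ^ r.1.2.1 * T i ^ k * (A i ^ e * τ i ^ e) * h3 r.1.2.1 -
        A i ^ l * U' i ^ r.1.2.1 * T i ^ k * (A i ^ e * τ i ^ e) *
          (A i ^ r.1.2.1 * τ i ^ r.1.2.1) * h3 k
  suffices hz0 : (Matrix.of fun (r : Low D) =>
      τ ^ (D - dg r.1) * std 1 (U' * τ) (T * τ) r.1).det = 0 by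
    rw [e1, Matrix.det_mul, e2, Matrix.det_mul_row, hz0, mul_zero, mul_zero]
  refine det_fil π a (c + 1) N hN (U * τ) τ (fun r => D - dg r.1) (fun r => JJ r.1) _ ?_ hc
  intro r
  have t0 : τ ^ (D - dg r.1) ∈ Fil π a (c + 1) (U * τ) τ (D - dg r.1) 0 :=
    Submodule.subset_span ⟨0, 0, 0, by omega, by simp⟩
  change τ ^ (D - dg r.1) * std 1 (U' * τ) (T * τ) r.1 ∈ _
  unfold std JJ
  split_ifs with h
  · have := fil_mul t0 (fil_pow hu r.1.2.1)
    simpa using this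
  · have := fil_mul t0 (fil_mul (fil_pow hu r.1.2.1) (fil_pow hθ (r.1.1 + 1)))
    simpa [mul_comm (r.1.1 + 1) 2] using this

end Pool.Agent.Lib.MP_9c5702_nt.TP
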