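import Pool.Agent.Lib.MP_9c5702_nt.TP.Form
import Pool.Agent.Lib.MP_9c5702_nt.GL.Cls

/-! The count in one projective class. -/

set_option autoImplicit false

namespace Pool.Agent.Lib.MP_9c5702_nt.TP

open MvPolynomial Pool.Agent.Lib.MP_9c5702_nt.Q4 Pool.Agent.Lib.MP_9c5702_nt.QB
  Pool.Agent.Lib.MP_9c5702_nt.QS Pool.Agent.Lib.MP_9c5702_nt.GL

private lemma cls5_prod (l : ℕ → ℕ) (J j : ℕ) (hj : j ≤ J)
    (hinj : ∀ i < J, ∀ k < J, l i = l k → i = k) :
    ∏ p ∈ (Finset.range j).image l, p = ∏ i ∈ Finset.range j, l i := by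
  refine Finset.prod_image ?_
  intro x hx y hy h
  have hx' : x < j := by simpa using hx
  have hy' : y < j := by simpa using hy
  exact hinj x (by omega) y (by omega) h

theorem cls5 (κ : ℕ) : ∃ C Y0 D1 : ℕ, ∀ (n B Y K0 E0 : ℕ) (S : Finset ℕ) (a β : ℕ → ℕ),
    Adm2 n S a β → 1 ≤ n → B ^ 3 ≤ n → Y0 ≤ Y → n ≤ Y ^ κ → 1 ≤ K0 → K0 ≤ Y ^ (κ + 6) →
    max 0 (mu5 n S a β) + 8 * Real.log Y ≤ √3 * Real.log K0 →
    ∀ W : Finset V, (∀ P ∈ W, P ∈ Sol n B) → Pw (Crs (3 * (qq S a : ℤ))) W → Pw (Cong 3) W →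
    (∀ W' : Finset V, W' ⊆ W → ∀ G : MvPolynomial (Fin 3) ℤ, G ≠ 0 → G.IsHomogeneous D1 →
      (∀ P ∈ W', eval P G = 0) → W'.card ≤ E0) →
    W.card ≤ C * K0 * (E0 + Y ^ 2 * K0) := by
  obtain ⟨Y1, hform3⟩ := form5
  obtain ⟨E, hE⟩ : ∃ E, E = 3 * κ + 15 := ⟨_, rfl⟩
  obtain ⟨D0, hD0⟩ : ∃ D0, D0 = 205 * E := ⟨_, rfl⟩
  obtain ⟨A, hAd⟩ : ∃ A, A = 2 ^ (2 * κ + 8) := ⟨_, rfl⟩
  obtain ⟨c, hc⟩ : ∃ c, c = 3 * A ^ 2 := ⟨_, rfl⟩
  have hA1 : 1 ≤ A := by rw [hAd]; exact Nat.one_le_two_pow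
  have hc1 : 1 ≤ c := by
    have : 1 ≤ A ^ 2 := Nat.one_le_pow _ _ hA1
    omega
  refine ⟨3 * (D0 + 2) + (κ + 7) * c ^ (κ + 7) * (9 * (D0 + 2) ^ 2), Y1 + E + A + 4,
    3 * (D0 + 1), ?_⟩
  intro n B Y K0 E0 S a β hA hn1 hB hY hnY hK0 hK0Y hu W hW hp1 hp3 hE0
  have hY4 : 4 ≤ Y := by omega
  have hYκ : 1 ≤ Y ^ κ := Nat.one_le_pow _ _ (by omega)
  have h3n : 3 * n < Y ^ (κ + 1) := by
    rw [pow_succ]
    nlinarith
  obtain ⟨J, hJ⟩ : ∃ J, J = Nat.log Y K0 + 1 := ⟨_, rfl⟩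
  have hJκ : J ≤ κ + 7 := by
    have h1 := Nat.log_mono_right (b := Y) hK0Y
    rw [Nat.log_pow (by omega)] at h1
    omega
  have hKJ : K0 < Y ^ J := by
    rw [hJ]
    exact Nat.lt_pow_succ_log_self (by omega) K0
  have hjK : ∀ j < J, Y ^ j ≤ K0 := fun j hj =>
    (Nat.pow_le_pow_right (by omega) (by omega : j ≤ Nat.log Y K0)).trans
      (Nat.pow_log_le_self Y (by omega))
  obtain ⟨l, hl, hinj⟩ := primes_good Y J (κ + 1) (3 * n) (by omega) (by omega) h3n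
  have hlA : ∀ i < J, l i ≤ A * Y := fun i hi =>
    (hl i hi).2.2.1.trans (Nat.mul_le_mul_right _ (by
      rw [hAd]
      exact Nat.pow_le_pow_right (by norm_num) (by omega)))
  have hch := chain (n : ℤ) (by exact_mod_cast (by omega : n ≠ 0)) W (fun P hP => (hW P hP).2.1) J
    (c * Y ^ 2) E0 (fun j => Cong (l j : ℤ)) (fun j => 3 * (D0 + K0 / Y ^ j + 1))
    (by
      intro j hj
      refine cov_mono (scov (l j) (hl j hj).1 n) (fun P hP => (hW P hP).2.1)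
        (fun _ _ _ _ h => h) ?_
      calc 3 * l j ^ 2 ≤ 3 * (A * Y) ^ 2 := by
            have := hlA j hj
            gcongr
        _ = c * Y ^ 2 := by rw [hc]; ring)
    (by
      intro j hj W' hW' hp
      have hlow : Y ^ j ≤ ∏ i ∈ Finset.range j, l i := by
        have := Finset.pow_card_le_prod (Finset.range j) l Y fun i hi =>
          (hl i (by have := Finset.mem_range.1 hi; omega)).2.1.le
        rwa [Finset.card_range] at this
      have hup : ∏ i ∈ Finset.range j, l i ≤ (Y ^ 2) ^ j := by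
        have := Finset.prod_le_pow_card (Finset.range j) l (Y ^ 2) fun i hi =>
          (hlA i (by have := Finset.mem_range.1 hi; omega)).trans (by
            rw [pow_two]
            exact Nat.mul_le_mul_right _ (by omega))
        rwa [Finset.card_range] at this
      refine hform3 n B Y E (D0 + K0 / Y ^ j + 1) S ((Finset.range j).image l) a β hA hn1 hB
        (by omega) (by omega) (by omega) ?_
        (by rw [← hD0]; exact Nat.lt_succ_of_le (Nat.le_add_right _ _)) ?_ ?_ W' (fun P hP => hW P (hW' hP))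
        (hp1.mono hW') (hp3.mono hW') ?_
      · rw [cls5_prod l J j hj hinj]
        calc 3 * n * ∏ i ∈ Finset.range j, l i ≤ Y ^ (κ + 1) * (Y ^ 2) ^ j :=
              Nat.mul_le_mul h3n.le hup
          _ = Y ^ (κ + 1 + 2 * j) := by rw [← pow_mul, ← pow_add]
          _ ≤ Y ^ E := Nat.pow_le_pow_right (by omega) (by omega)
      · intro p hp'
        obtain ⟨i, hi, rfl⟩ := Finset.mem_image.1 hp'
        have hi' : i < J := by have := Finset.mem_range.1 hi; omega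
        exact ⟨(hl i hi').1, (hl i hi').2.2.2⟩
      · rw [cls5_prod l J j hj hinj]
        refine hu.trans (mul_le_mul_of_nonneg_left ?_ (Real.sqrt_nonneg _))
        refine Real.log_le_log (by exact_mod_cast hK0) ?_
        have hYj : 0 < Y ^ j := Nat.pow_pos (by omega)
        have h1 : K0 < Y ^ j * (K0 / Y ^ j + 1) := Nat.lt_mul_div_succ K0 hYj
        have h2 : K0 ≤ (D0 + K0 / Y ^ j + 1) * ∏ i ∈ Finset.range j, l i := by
          refine h1.le.trans ?_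
          rw [mul_comm]
          exact Nat.mul_le_mul (Nat.succ_le_succ (Nat.le_add_left _ _)) hlow
        exact_mod_cast h2
      · intro p hp'
        obtain ⟨i, hi, rfl⟩ := Finset.mem_image.1 hp'
        exact hp i (Finset.mem_range.1 hi))
    (by
      intro W' hW' h e' h0 he hh hv
      have he' : e' ≤ 3 * (D0 + 1) := by
        have : K0 / Y ^ J = 0 := Nat.div_eq_of_lt hKJ
        simp only [this] at he
        omega
      obtain ⟨G, hG0, hG, hGv⟩ := clr h h0 e' _ hh he'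
      exact hE0 W' hW' G hG0 hG fun P hP => hGv P (hv P hP))
  have hs := chain_sum Y K0 D0 c J (κ + 7) (by omega) hc1 hJκ hjK
  refine hch.trans ((Nat.add_le_add_left hs _).trans ?_)
  obtain ⟨X, hX⟩ : ∃ X, X = (κ + 7) * c ^ (κ + 7) * (9 * (D0 + 2) ^ 2) := ⟨_, rfl⟩
  rw [← hX, pow_zero, Nat.div_one]
  have h1 : 3 * (D0 + K0 + 1) ≤ 3 * (D0 + 2) * K0 := by nlinarith
  calc 3 * (D0 + K0 + 1) * E0 + X * (Y ^ 2 * K0 ^ 2)
      ≤ 3 * (D0 + 2) * K0 * E0 + X * (Y ^ 2 * K0 ^ 2) := by gcongr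
    _ ≤ 3 * (D0 + 2) * K0 * E0 + X * (Y ^ 2 * K0 ^ 2) +
        (X * K0 * E0 + 3 * (D0 + 2) * K0 * (Y ^ 2 * K0)) := Nat.le_add_right _ _
    _ = _ := by ring

end Pool.Agent.Lib.MP_9c5702_nt.TP
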