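import Pool.Agent.Lib.MP_9c5702_nt.TP.Defs
import Pool.Agent.Lib.MP_9c5702_nt.QS.PDiv

/-! The weight of an injective choice. -/

set_option autoImplicit false

namespace Pool.Agent.Lib.MP_9c5702_nt.TP

open MvPolynomial Pool.Agent.Lib.MP_9c5702_nt.Q4 Pool.Agent.Lib.MP_9c5702_nt.QB
  Pool.Agent.Lib.MP_9c5702_nt.QS Pool.Agent.Lib.MP_9c5702_nt.GL

lemma cnt_top (D : ℕ) : 2 * ∑ r ∈ (Low (D + 1)).filter (fun r => ¬ dg r ≤ D), JJ r =
    7 * D ^ 2 + 11 * D + 6 := by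
  have h : ∑ r ∈ (Low (D + 1)).filter (fun r => ¬ dg r ≤ D), JJ r =
      ∑ s ∈ (Finset.range 3).sigma fun l => Finset.range (D + 2 - l),
        JJ (s.2, D + 1 - s.1 - s.2, s.1) := by
    refine Finset.sum_nbij' (fun r => ⟨r.2.2, r.1⟩) (fun s => (s.2, D + 1 - s.1 - s.2, s.1))
      ?_ ?_ ?_ ?_ ?_
    · intro r hr
      simp only [Finset.mem_filter, mem_Low, dg, Finset.mem_sigma, Finset.mem_range] at hr ⊢
      omega
    · intro s hs
      simp only [Finset.mem_filter, mem_Low, dg, Finset.mem_sigma, Finset.mem_range] at hs ⊢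
      omega
    · intro r hr
      simp only [Finset.mem_filter, mem_Low, dg] at hr
      refine Prod.ext rfl (Prod.ext ?_ rfl)
      simp only
      omega
    · intro s _
      rfl
    · intro r hr
      simp only [Finset.mem_filter, mem_Low, dg] at hr
      congr 1
      refine Prod.ext rfl (Prod.ext ?_ rfl)
      simp only
      omega
  have g0 : ∀ m : ℕ, 2 * ∑ i ∈ Finset.range (m + 1), (m - i) = m * (m + 1) := by
    intro m
    have := Finset.sum_range_reflect (fun i => i) (m + 1)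
    simp only [Nat.add_sub_cancel] at this
    rw [this, mul_comm, Finset.sum_range_id_mul_two, Nat.add_sub_cancel, mul_comm]
  have g1 : ∀ m : ℕ, 2 * ∑ i ∈ Finset.range m, (m - 1 - i + 2 * (i + 1)) = 3 * m ^ 2 + m := by
    intro m
    rcases m with _ | m
    · simp
    · have k1 := g0 m
      have k2 := Finset.sum_range_id_mul_two (m + 1)
      have k3 : ∑ i ∈ Finset.range (m + 1), (m + 1 - 1 - i + 2 * (i + 1)) =
          ∑ i ∈ Finset.range (m + 1), (m - i) + 2 * (∑ i ∈ Finset.range (m + 1), i + (m + 1)) := by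
        rw [Finset.sum_add_distrib, ← Finset.mul_sum, Finset.sum_add_distrib, Finset.sum_const,
          Finset.card_range, smul_eq_mul, mul_one, Nat.add_sub_cancel]
      rw [Nat.add_sub_cancel] at k2
      rw [k3]
      nlinarith
  have k0 := g0 (D + 1)
  have k1 := g1 (D + 1)
  have k2 := g1 D
  rw [h, Finset.sum_sigma, Finset.sum_range_succ, Finset.sum_range_succ, Finset.sum_range_one]
  simp only [JJ, Nat.sub_zero, if_true, one_ne_zero, if_false, OfNat.ofNat_ne_zero,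
    show D + 2 - 1 = D + 1 from rfl, show D + 2 - 2 = D from rfl,
    show D + 1 - 2 = D - 1 from rfl]
  nlinarith

theorem jj_sum (D : ℕ) : 7 * D ^ 3 ≤ 6 * ∑ r ∈ Low D, JJ r := by
  have key : ∀ D : ℕ, 6 * ∑ r ∈ Low D, JJ r = 7 * D ^ 3 + 6 * D ^ 2 + 5 * D := by
    intro D
    induction D with
    | zero => simp [low_zero, JJ]
    | succ D ih =>
      rw [← Finset.sum_filter_add_sum_filter_not (Low (D + 1)) (fun r => dg r ≤ D)]
      have h1 : (Low (D + 1)).filter (fun r => dg r ≤ D) = Low D := by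
        ext r
        simp only [Finset.mem_filter, mem_Low]
        omega
      have h2 := cnt_top D
      rw [h1, mul_add, ih]
      nlinarith
  rw [key]
  omega

theorem tp_count (a b D : ℕ) (ha : 1 ≤ a) (hab : 2 * a ≤ b) (hba : b ≤ 4 * a) (hD : 1 ≤ D) :
    ∃ N : ℕ, ((a : ℝ) + (b : ℝ) / 12) * (D : ℝ) ^ 3 - 201 * b * (D : ℝ) ^ 2 ≤ N ∧ Cn a b D N := by
  classical
  obtain ⟨w, τ, hw, hw'⟩ := wab2 1 4 D (Low D).card le_rfl (by norm_num) (by norm_num) hD
    (low_card D)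
  have hE := low_e D
  have hJ := jj_sum D
  obtain ⟨E, hEd⟩ : ∃ E, E = ∑ r ∈ Low D, ee D r := ⟨_, rfl⟩
  obtain ⟨SJ, hSJ⟩ : ∃ SJ, SJ = ∑ r ∈ Low D, JJ r := ⟨_, rfl⟩
  rw [← hEd] at hE
  rw [← hSJ] at hJ
  obtain ⟨γ, rfl⟩ : ∃ γ, b = 2 * a + γ := ⟨b - 2 * a, by omega⟩
  obtain ⟨α, hα⟩ : ∃ α, 2 * a = α + γ := ⟨2 * a - γ, by omega⟩
  refine ⟨(α * SJ + γ * (w - 4 * E)) / 2, ?_, ?_⟩
  · obtain ⟨N, hN⟩ : ∃ N, N = (α * SJ + γ * (w - 4 * E)) / 2 := ⟨_, rfl⟩
    obtain ⟨X, hX⟩ : ∃ X, X = w - 4 * E := ⟨_, rfl⟩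
    rw [← hN]
    rw [← hX] at hN
    have k1 : (α : ℝ) * SJ + γ * X ≤ 2 * N + 1 := by
      exact_mod_cast (by omega : α * SJ + γ * X ≤ 2 * N + 1)
    have k2 : (w : ℝ) ≤ X + 4 * E := by exact_mod_cast (by omega : w ≤ X + 4 * E)
    have k3 : 6 * (E : ℝ) ≤ (D : ℝ) ^ 3 + D := by exact_mod_cast hE
    have k4 : 7 * (D : ℝ) ^ 3 ≤ 6 * SJ := by exact_mod_cast hJ
    have k5 : (2 : ℝ) * a = α + γ := by exact_mod_cast hα
    have k6 : √(((1 : ℕ) : ℝ) * (4 : ℕ)) = 2 := by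
      rw [show (((1 : ℕ) : ℝ) * (4 : ℕ)) = 2 ^ 2 by norm_num, Real.sqrt_sq (by norm_num)]
    have d1 : (1 : ℝ) ≤ D := by exact_mod_cast hD
    have d2 : (D : ℝ) ≤ (D : ℝ) ^ 2 := by nlinarith
    have a1 : (1 : ℝ) ≤ a := by exact_mod_cast ha
    have α0 : (0 : ℝ) ≤ α := Nat.cast_nonneg _
    have γ0 : (0 : ℝ) ≤ γ := Nat.cast_nonneg _
    rw [k6] at hw'
    push_cast at hw' ⊢
    have k7 : (4 / 3 : ℝ) * (D : ℝ) ^ 3 - 801 * (D : ℝ) ^ 2 ≤ X := by linarith
    have k8 := mul_le_mul_of_nonneg_left k7 γ0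
    have k9 := mul_le_mul_of_nonneg_left k4 α0
    have k10 : (1 : ℝ) * 1 ≤ (α + γ) * (D : ℝ) ^ 2 :=
      mul_le_mul (by linarith) (d1.trans d2) (by norm_num) (by positivity)
    have k11 : 0 ≤ (α : ℝ) * (D : ℝ) ^ 2 := by positivity
    have k12 : 0 ≤ (γ : ℝ) * (D : ℝ) ^ 2 := by positivity
    have e1 : (a : ℝ) = (α + γ) / 2 := by linarith
    rw [e1]
    nlinarith
  · intro i j κ h1 h2
    have h3 := det3_count 1 4 le_rfl (by norm_num)
      (fun r : Low D => (⟨(D - dg r.1) % 3, Nat.mod_lt _ (by norm_num)⟩ : Fin 3))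
      (fun r => Finsupp.equivFunOnFinite.symm ![j r, ee D r.1 + κ r]) (by
        intro r r' h
        have h4 : (D - dg r.1) % 3 = (D - dg r'.1) % 3 := congrArg (fun x => x.1.val) h
        have h5 : j r = j r' := congrArg (fun x => x.2 0) h
        have h6 : ee D r.1 + κ r = ee D r'.1 + κ r' := congrArg (fun x => x.2 1) h
        refine h2 (Prod.ext h5 ?_)
        unfold ee at h6
        change D - dg r.1 + 3 * κ r = D - dg r'.1 + 3 * κ r'
        omega) τ
    have h4 : ∑ r : Low D, (1 * j r + 4 * (ee D r.1 + κ r)) =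
        ∑ r : Low D, (j r + 4 * κ r) + 4 * E := by
      rw [hEd, ← Finset.sum_coe_sort (Low D) (ee D), Finset.mul_sum, ← Finset.sum_add_distrib]
      exact Finset.sum_congr rfl fun r _ => by ring
    have h5 : τ * (Low D).card ≤ ∑ r : Low D, (j r + 4 * κ r) + 4 * E +
        ∑ k ∈ Finset.Icc 1 τ, 3 * Nab 1 4 k := by
      rw [← h4, ← Fintype.card_coe]
      exact h3
    have h6 : w - 4 * E ≤ ∑ r : Low D, (j r + 4 * κ r) := by omega
    have h7 : α * SJ + γ * ∑ r : Low D, (j r + 4 * κ r) ≤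
        2 * ∑ r : Low D, (a * i r + a * j r + (2 * a + γ) * κ r) := by
      rw [hSJ, ← Finset.sum_coe_sort (Low D) JJ, Finset.mul_sum, Finset.mul_sum, Finset.mul_sum,
        ← Finset.sum_add_distrib]
      refine Finset.sum_le_sum fun r _ => ?_
      have k1 := Nat.mul_le_mul_left α (h1 r)
      have e : 2 * (a * i r + a * j r + (2 * a + γ) * κ r) =
          α * (i r + j r + 2 * κ r) + γ * (j r + 4 * κ r) + γ * i r := by
        calc _ = (2 * a) * i r + (2 * a) * j r + 2 * (2 * a + γ) * κ r := by ring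
          _ = _ := by rw [hα]; ring
      omega
    have h8 := Nat.mul_le_mul_left γ h6
    omega

end Pool.Agent.Lib.MP_9c5702_nt.TP
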