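import Pool.Agent.Lib.MP_9c5702_nt.TP.Cls
import Pool.Agent.Lib.MP_9c5702_nt.GL.Core

/-! The count of primitive solutions with all parameters explicit. -/

set_option autoImplicit false

namespace Pool.Agent.Lib.MP_9c5702_nt.TP

open MvPolynomial Pool.Agent.Lib.MP_9c5702_nt.Q4 Pool.Agent.Lib.MP_9c5702_nt.QB
  Pool.Agent.Lib.MP_9c5702_nt.QS Pool.Agent.Lib.MP_9c5702_nt.GL

private lemma core5_lt {Y L K E R : ℕ} (hY : Y ≤ L ^ 2) (hR : R < Y ^ E) (hK : 2 * E ≤ K)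
    (hL : 1 ≤ L) : R < L ^ K :=
  calc R < Y ^ E := hR
    _ ≤ (L ^ 2) ^ E := Nat.pow_le_pow_left hY E
    _ = L ^ (2 * E) := by rw [← pow_mul]
    _ ≤ L ^ K := Nat.pow_le_pow_right hL hK

private lemma core5_Hd {D B Y κ : ℕ} (hY : (D + 1) ^ 3 ≤ Y) (hB : B ≤ Y ^ κ) :
    Hd D B ≤ Y ^ ((κ * D + 1) * ((D + 1) ^ 3 + 2)) := by
  unfold Hd
  rw [pow_mul]
  refine Nat.pow_le_pow_left ?_ _
  calc (D + 1) ^ 3 * B ^ D ≤ Y * (Y ^ κ) ^ D := Nat.mul_le_mul hY (Nat.pow_le_pow_left hB D)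
    _ = Y ^ (κ * D + 1) := by rw [← pow_mul]; ring

theorem core5 (κ : ℕ) : ∃ C Y0 : ℕ, ∀ (n B Y T L K0 : ℕ) (S : Finset ℕ) (a β : ℕ → ℕ),
    Adm2 n S a β → 1 ≤ B → B ^ 3 ≤ n → Y0 ≤ Y → n ≤ Y ^ κ → TB n T → 1 ≤ K0 →
    K0 ≤ Y ^ (κ + 6) → max 0 (mu5 n S a β) + 8 * Real.log Y ≤ √3 * Real.log K0 → Y ≤ L ^ 2 →
    256 * n * Y ^ 3 ≤ L ^ 6 * qq S a ^ 3 → ∀ W : Finset V, (∀ P ∈ W, P ∈ Sol n B) →
    W.card ≤ C * qq S a * K0 * (L + Y ^ 2 * K0) * T ^ 16 := by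
  obtain ⟨C1, Y1, D3, hcls⟩ := cls5 κ
  obtain ⟨E, hE⟩ : ∃ E, E = (κ * D3 + 1) * ((D3 + 1) ^ 3 + 2) + (κ + 1) := ⟨_, rfl⟩
  obtain ⟨K, hK⟩ : ∃ K, K = 2 * E := ⟨_, rfl⟩
  obtain ⟨A, hAdef⟩ : ∃ A, A = D3 * (K * (6 * D3 * 2 ^ K * (36 * κ + 54 + 27 * CU))) := ⟨_, rfl⟩
  refine ⟨81 * C1 * (A + 1), (6 * κ + 3) ^ 4 + Y1 + (D3 + 1) ^ 3 + 4, ?_⟩
  intro n B Y T L K0 S a β hA hB1 hB hY hnY hT hK0 hK0Y hu hYL hL W hW
  have hpar : Par n B κ Y T := ⟨hB1, hB, hnY, by omega, hT⟩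
  have hn1 := hpar.n1
  have hq := hA.qq_pos
  have hY4 : 4 ≤ Y := by omega
  have hT1 : 1 ≤ T := hT.one_le hn1
  have hLpos : 1 ≤ L := by
    rcases Nat.eq_zero_or_pos L with rfl | h
    · simp at hYL; omega
    · exact h
  have hYκ : 1 ≤ Y ^ κ := Nat.one_le_pow _ _ (by omega)
  have h3n : 3 * n < Y ^ (κ + 1) := by
    rw [pow_succ]
    nlinarith
  have hbigL : 3 * n * Hd D3 B < L ^ K := by
    refine core5_lt hYL ?_ hK.ge hLpos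
    have h1 := core5_Hd (D := D3) (by omega : (D3 + 1) ^ 3 ≤ Y) hpar.BY
    have h2 : 0 < Y ^ ((κ * D3 + 1) * ((D3 + 1) ^ 3 + 2)) := Nat.pow_pos (by omega)
    calc 3 * n * Hd D3 B ≤ 3 * n * Y ^ ((κ * D3 + 1) * ((D3 + 1) ^ 3 + 2)) :=
          Nat.mul_le_mul_left _ h1
      _ < Y ^ (κ + 1) * Y ^ ((κ * D3 + 1) * ((D3 + 1) ^ 3 + 2)) :=
          Nat.mul_lt_mul_of_pos_right h3n h2
      _ = Y ^ E := by rw [hE, ← pow_add, add_comm]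
  obtain ⟨S0, hS, hSp⟩ := primes_list L K hLpos
  have hc1 := fcov n (qq S a) B T hA.sq_dvd hn1 hq hT
  have hmain := cov_and hc1 (cov3 (Sol n B)) W
    (C1 * K0 * (D3 * (K * (6 * D3 * (2 ^ K * L) * ((36 * κ + 54 + 27 * CU) * T ^ 9))) +
      Y ^ 2 * K0)) hW
    (by
      intro W1 hW1 hp
      have hWs : ∀ P ∈ W1, P ∈ Sol n B := fun P hP => hW P (hW1 hP)
      have hp1 : Pw (Crs (3 * (qq S a : ℤ))) W1 := fun P hP P' hP' => (hp P hP P' hP').1.1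
      have hp4 : Pw (FlQ (qq S a)) W1 := fun P hP P' hP' => (hp P hP P' hP').1.2
      have hp3 : Pw (Cong 3) W1 := fun P hP P' hP' => (hp P hP P' hP').2
      refine hcls n B Y K0 _ S a β hA hn1 hB (by omega) hnY hK0 hK0Y hu W1 hWs hp1 hp3 ?_
      intro W' hW' G hG0 hG h0
      have hWs' : ∀ P ∈ W', P ∈ Sol n B := fun P hP => hWs P (hW' hP)
      refine curve n B D3 L K _ (2 ^ K * L) S0 hS hSp hn1 hB1 hbigL W' hWs' ?_ G hG0 hG h0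
      intro l hl hln W'' hW'' hC
      have hsub : W'' ⊆ W1 := hW''.trans hW'
      refine plane2 n (qq S a) B κ Y T l hpar hA.sq_dvd hq (hSp l hl).1 hln ?_ ?_ W''
        (fun P hP => hWs P (hsub hP)) (hp1.mono hsub) (hp4.mono hsub) (hp3.mono hsub) hC
      · exact hYL.trans (Nat.pow_le_pow_left (hSp l hl).2.1.le 2)
      · exact hL.trans (Nat.mul_le_mul_right _ (Nat.pow_le_pow_left (hSp l hl).2.1.le 6)))
  refine hmain.trans ?_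
  have h9 : 1 ≤ T ^ 9 := Nat.one_le_pow _ _ hT1
  have h5 : D3 * (K * (6 * D3 * (2 ^ K * L) * ((36 * κ + 54 + 27 * CU) * T ^ 9))) + Y ^ 2 * K0 ≤
      (A + 1) * (L + Y ^ 2 * K0) * T ^ 9 := by
    have e : D3 * (K * (6 * D3 * (2 ^ K * L) * ((36 * κ + 54 + 27 * CU) * T ^ 9))) =
        A * L * T ^ 9 := by rw [hAdef]; ring
    rw [e]
    have h6 : Y ^ 2 * K0 ≤ Y ^ 2 * K0 * T ^ 9 := Nat.le_mul_of_pos_right _ h9
    calc A * L * T ^ 9 + Y ^ 2 * K0 ≤ A * L * T ^ 9 + Y ^ 2 * K0 * T ^ 9 := by omega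
      _ ≤ A * L * T ^ 9 + Y ^ 2 * K0 * T ^ 9 + (L * T ^ 9 + A * (Y ^ 2 * K0) * T ^ 9) :=
          Nat.le_add_right _ _
      _ = _ := by ring
  calc 3 * qq S a * T ^ 7 * 27 *
        (C1 * K0 * (D3 * (K * (6 * D3 * (2 ^ K * L) * ((36 * κ + 54 + 27 * CU) * T ^ 9))) +
          Y ^ 2 * K0))
      ≤ 3 * qq S a * T ^ 7 * 27 * (C1 * K0 * ((A + 1) * (L + Y ^ 2 * K0) * T ^ 9)) := by gcongr
    _ = _ := by ring

end Pool.Agent.Lib.MP_9c5702_nt.TP
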