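import Pool.Agent.Lib.MP_9c5702_nt.TP.Defs
import Pool.Agent.Lib.MP_9c5702_nt.QS.Phi

/-! The local exponent under removal of a cube. -/

set_option autoImplicit false

namespace Pool.Agent.Lib.MP_9c5702_nt.TP

open MvPolynomial Pool.Agent.Lib.MP_9c5702_nt.Q4 Pool.Agent.Lib.MP_9c5702_nt.QB
  Pool.Agent.Lib.MP_9c5702_nt.QS Pool.Agent.Lib.MP_9c5702_nt.GL

lemma psi_am (a b : ℕ) : phi a b ≤ (a : ℝ) + (b : ℝ) / 12 := by
  have a0 : (0 : ℝ) ≤ a := Nat.cast_nonneg _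
  have b0 : (0 : ℝ) ≤ b := Nat.cast_nonneg _
  have h : √((a : ℝ) * b) ≤ a + b / 4 :=
    Real.sqrt_le_iff.2 ⟨by positivity, by nlinarith [sq_nonneg ((a : ℝ) - b / 4)]⟩
  unfold phi
  linarith

theorem phi_le_psi (a b : ℕ) : phi a b ≤ psi a b := by
  unfold psi
  split_ifs
  · exact psi_am a b
  · exact le_rfl

theorem psi_step (a b α δ a' b' : ℕ) (h1 : 2 * a ≤ b) (h2 : b ≤ α + 3 * δ)
    (ha' : a' = min a (α / 2)) (hb' : b' = if 2 * a ≤ α then min b α else 2 * (α / 2)) :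
    psi a b - psi a' b' - δ ≤ √3 / 2 * ((a : ℝ) - a') := by
  have s3 : (1.732 : ℝ) ≤ √3 := Real.le_sqrt_of_sq_le (by norm_num)
  have hup : psi a b ≤ (a : ℝ) + (b : ℝ) / 12 := by
    unfold psi
    split_ifs
    · exact le_rfl
    · exact psi_am a b
  have d0 : (0 : ℝ) ≤ δ := Nat.cast_nonneg _
  by_cases hα : 2 * a ≤ α
  · have e1 : a' = a := by omega
    rw [if_pos hα] at hb'
    by_cases h4 : b' ≤ 4 * a'
    · have k1 : (b : ℝ) ≤ b' + 3 * δ := by exact_mod_cast (by omega : b ≤ b' + 3 * δ)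
      rw [psi.eq_1 a' b', if_pos h4, e1]
      linarith
    · have h5 : ¬ b ≤ 4 * a := by omega
      rw [psi, psi, if_neg h4, if_neg h5]
      exact (phi_step2 a b α δ a' b' h1 h2 ha' (by rw [if_pos hα]; exact hb')).1
  · rw [if_neg hα] at hb'
    have k1 : (b' : ℝ) = 2 * a' := by exact_mod_cast (by omega : b' = 2 * a')
    have k2 : (b : ℝ) ≤ 2 * a' + 1 + 3 * δ := by
      exact_mod_cast (by omega : b ≤ 2 * a' + 1 + 3 * δ)
    have k3 : (1 : ℝ) ≤ δ := by exact_mod_cast (by omega : 1 ≤ δ)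
    have k4 : (a : ℝ) ≤ a' + 2 * δ := by exact_mod_cast (by omega : a ≤ a' + 2 * δ)
    have k5 : (a' : ℝ) ≤ a := by exact_mod_cast (by omega : a' ≤ a)
    have k6 := mul_le_mul_of_nonneg_right s3 (sub_nonneg.2 k5)
    rw [psi.eq_1 a' b', if_pos (by omega : b' ≤ 4 * a'), k1]
    linarith

end Pool.Agent.Lib.MP_9c5702_nt.TP
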