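import Pool.Agent.Lib.MP_9c5702_nt.GL.Defs

/-! The tangent plane in the local determinant: notions. -/

set_option autoImplicit false

namespace Pool.Agent.Lib.MP_9c5702_nt.TP

open MvPolynomial Pool.Agent.Lib.MP_9c5702_nt.Q4 Pool.Agent.Lib.MP_9c5702_nt.QB
  Pool.Agent.Lib.MP_9c5702_nt.QS Pool.Agent.Lib.MP_9c5702_nt.GL

/-- the local exponent -/
noncomputable def psi (a b : ℕ) : ℝ := if b ≤ 4 * a then (a : ℝ) + (b : ℝ) / 12 else phi a b

noncomputable def mu5 (n : ℕ) (S : Finset ℕ) (a β : ℕ → ℕ) : ℝ :=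
  Real.log n / 3 - ∑ p ∈ S, psi (a p) (β p) * Real.log p

noncomputable def Bd5 (n : ℕ) (S : Finset ℕ) (a β : ℕ → ℕ) : ℝ :=
  (qq S a : ℝ) * Real.exp (1 / √3 * max 0 (mu5 n S a β)) *
    max (Real.exp (1 / √3 * max 0 (mu5 n S a β))) (((n : ℝ) / (qq S a : ℝ) ^ 3) ^ ((1 : ℝ) / 6))

/-- loss at the prime three -/
noncomputable def ls (p : ℕ) : ℝ := if p = 3 then 4 / 3 else 0

/-- weight of the standard monomial attached to `r` -/
def JJ (r : I3) : ℕ := if r.2.2 = 0 then r.2.1 else r.2.1 + 2 * (r.1 + 1)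

/-- the standard monomial attached to `r` -/
def std {K : Type} [CommRing K] (A U T : K) (r : I3) : K :=
  if r.2.2 = 0 then A ^ r.1 * U ^ r.2.1 else A ^ (r.2.2 - 1) * U ^ r.2.1 * T ^ (r.1 + 1)

/-- polynomials of degree at most `d` in `A, U, T` -/
def Mn (R : Type) {K : Type} [CommRing R] [CommRing K] [Algebra R K] (A U T : K) (d : ℕ) :
    Submodule R K :=
  Submodule.span R {x | ∃ i j k : ℕ, i + j + k ≤ d ∧ x = A ^ i * U ^ j * T ^ k}

/-- the local filtration -/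
def Fil {R K : Type} [CommRing R] [CommRing K] [Algebra R K] (π : R) (a b : ℕ) (u τ : K)
    (e J : ℕ) : Submodule R K :=
  Submodule.span R {x | ∃ i j κ : ℕ, J ≤ i + j + 2 * κ ∧
    x = π ^ (a * i + a * j + b * κ) • (u ^ j * τ ^ (e + 3 * κ))}

/-- every injective choice of local monomials has weight at least `N` -/
def Cn (a b D N : ℕ) : Prop :=
  ∀ i j κ : Low D → ℕ, (∀ r, JJ r.1 ≤ i r + j r + 2 * κ r) →
    Function.Injective (fun r : Low D => (j r, D - dg r.1 + 3 * κ r)) →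
    N ≤ ∑ r, (a * i r + a * j r + b * κ r)

end Pool.Agent.Lib.MP_9c5702_nt.TP
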