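import Pool.Agent.Lib.MP_9c5702_nt.TP.Defs

/-! The filtration is multiplicative; the tangent form has weight two. -/

set_option autoImplicit false

namespace Pool.Agent.Lib.MP_9c5702_nt.TP

open MvPolynomial Pool.Agent.Lib.MP_9c5702_nt.Q4 Pool.Agent.Lib.MP_9c5702_nt.QB
  Pool.Agent.Lib.MP_9c5702_nt.QS Pool.Agent.Lib.MP_9c5702_nt.GL

theorem fil_mul {R K : Type} [CommRing R] [CommRing K] [Algebra R K] {π : R} {a b : ℕ} {u τ : K}
    {e e' J J' : ℕ} {x y : K} (hx : x ∈ Fil π a b u τ e J) (hy : y ∈ Fil π a b u τ e' J') :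
    x * y ∈ Fil π a b u τ (e + e') (J + J') := by
  induction hx using Submodule.span_induction with
  | mem x hx =>
    induction hy using Submodule.span_induction with
    | mem y hy =>
      obtain ⟨i, j, κ, h1, rfl⟩ := hx
      obtain ⟨i', j', κ', h2, rfl⟩ := hy
      refine Submodule.subset_span ⟨i + i', j + j', κ + κ', by omega, ?_⟩
      rw [smul_mul_smul_comm, ← pow_add]
      congr 1
      · congr 1
        ring
      · ring
    | zero => rw [mul_zero]; exact Submodule.zero_mem _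
    | add y z _ _ h1 h2 => rw [mul_add]; exact Submodule.add_mem _ h1 h2
    | smul c y _ h1 => rw [mul_smul_comm]; exact Submodule.smul_mem _ c h1
  | zero => rw [zero_mul]; exact Submodule.zero_mem _
  | add x z _ _ h1 h2 => rw [add_mul]; exact Submodule.add_mem _ h1 h2
  | smul c x _ h1 => rw [smul_mul_assoc]; exact Submodule.smul_mem _ c h1

theorem fil_mono {R K : Type} [CommRing R] [CommRing K] [Algebra R K] {π : R} {a b : ℕ} {u τ : K}
    {e J J' : ℕ} (h : J' ≤ J) : Fil π a b u τ e J ≤ Fil π a b u τ e J' := by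
  refine Submodule.span_mono ?_
  rintro x ⟨i, j, κ, h1, rfl⟩
  exact ⟨i, j, κ, h.trans h1, rfl⟩

theorem fil_pow {R K : Type} [CommRing R] [CommRing K] [Algebra R K] {π : R} {a b : ℕ} {u τ : K}
    {J : ℕ} {x : K} (hx : x ∈ Fil π a b u τ 0 J) (k : ℕ) :
    x ^ k ∈ Fil π a b u τ 0 (k * J) := by
  induction k with
  | zero => exact Submodule.subset_span ⟨0, 0, 0, by omega, by simp⟩
  | succ k ih =>
    have := fil_mul ih hx
    rw [pow_succ, add_mul, one_mul]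
    exact this

theorem fil_theta {R K : Type} [CommRing R] [CommRing K] [Algebra R K] (π : R) (a b N : ℕ)
    (ha : 1 ≤ a) (hab : 2 * a ≤ b) (hN : π ^ N = 0) (x0 y0 z0 z1 ν : R) (hz : z1 * z0 = 1)
    (u v τ θ : K) (h1 : θ = y0 ^ 2 • π ^ a • u + z0 ^ 2 • π ^ a • v)
    (h2 : θ = (π ^ b * ν) • (x0 ^ 3 • τ ^ 3 - 1) -
      (3 : R) • (y0 • (π ^ a • u) ^ 2 + z0 • (π ^ a • v) ^ 2) -
      (3 : R) • ((π ^ a • u) ^ 3 + (π ^ a • v) ^ 3)) :
    θ ∈ Fil π a b u τ 0 2 := by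
  obtain ⟨a', rfl⟩ : ∃ a', a = a' + 1 := ⟨a - 1, by omega⟩
  obtain ⟨c, rfl⟩ : ∃ c, b = 2 * (a' + 1) + c := ⟨b - 2 * (a' + 1), by omega⟩
  have hU : π ^ (a' + 1) • u ∈ Fil π (a' + 1) (2 * (a' + 1) + c) u τ 0 1 :=
    Submodule.subset_span ⟨0, 1, 0, by omega, by simp⟩
  have hT : π ^ (2 * (a' + 1) + c) • τ ^ 3 ∈ Fil π (a' + 1) (2 * (a' + 1) + c) u τ 0 2 :=
    Submodule.subset_span ⟨0, 0, 1, by omega, by simp⟩
  have hO : π ^ (2 * (a' + 1)) • (1 : K) ∈ Fil π (a' + 1) (2 * (a' + 1) + c) u τ 0 2 :=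
    Submodule.subset_span ⟨2, 0, 0, by omega, by simp [mul_comm]⟩
  have hν : (π ^ (2 * (a' + 1) + c) * ν) • (x0 ^ 3 • τ ^ 3 - 1) ∈
      Fil π (a' + 1) (2 * (a' + 1) + c) u τ 0 2 := by
    have e : (π ^ (2 * (a' + 1) + c) * ν) • (x0 ^ 3 • τ ^ 3 - 1) =
        (ν * x0 ^ 3) • π ^ (2 * (a' + 1) + c) • τ ^ 3 -
          (ν * π ^ c) • π ^ (2 * (a' + 1)) • (1 : K) := by
      simp only [Algebra.smul_def, map_mul, map_pow]
      ring
    rw [e]
    exact Submodule.sub_mem _ (Submodule.smul_mem _ _ hT) (Submodule.smul_mem _ _ hO)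
  have hz' : algebraMap R K z1 * algebraMap R K z0 = 1 := by rw [← map_mul, hz, map_one]
  have key : ∀ m : ℕ, ∃ t ∈ Fil π (a' + 1) (2 * (a' + 1) + c) u τ 0 2, ∃ ρ : K,
      θ = t + π ^ (m + 1) • ρ := by
    intro m
    induction m with
    | zero =>
      refine ⟨0, Submodule.zero_mem _, y0 ^ 2 • π ^ a' • u + z0 ^ 2 • π ^ a' • v, ?_⟩
      rw [h1]
      simp only [Algebra.smul_def, map_pow]
      ring
    | succ m ih =>
      obtain ⟨t, ht, ρ, hρ⟩ := ih
      obtain ⟨w, hw⟩ : ∃ w : K, w = z1 ^ 2 • (t - y0 ^ 2 • π ^ (a' + 1) • u) := ⟨_, rfl⟩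
      have hw1 : w ∈ Fil π (a' + 1) (2 * (a' + 1) + c) u τ 0 1 := by
        rw [hw]
        exact Submodule.smul_mem _ _ (Submodule.sub_mem _ (fil_mono (by norm_num) ht)
          (Submodule.smul_mem _ _ hU))
      have hvw : π ^ (a' + 1) • v = w + π ^ (m + 1) • z1 ^ 2 • ρ := by
        have e1 : t = θ - π ^ (m + 1) • ρ := by rw [hρ]; ring
        rw [hw, e1, h1]
        simp only [Algebra.smul_def, map_pow]
        linear_combination (-(algebraMap R K π ^ (a' + 1) * v) *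
          (algebraMap R K z1 * algebraMap R K z0 + 1)) * hz'
      obtain ⟨w', hw'⟩ : ∃ w' : K, w = π • w' :=
        ⟨π ^ a' • v - π ^ m • z1 ^ 2 • ρ, by
          have e1 : w = π ^ (a' + 1) • v - π ^ (m + 1) • z1 ^ 2 • ρ := by rw [hvw]; ring
          rw [e1]
          simp only [Algebra.smul_def, map_pow]
          ring⟩
      refine ⟨(π ^ (2 * (a' + 1) + c) * ν) • (x0 ^ 3 • τ ^ 3 - 1) -
        (3 : R) • (y0 • (π ^ (a' + 1) • u) ^ 2 + z0 • w ^ 2) -
        (3 : R) • ((π ^ (a' + 1) • u) ^ 3 + w ^ 3), ?_,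
        -((3 : R) • (z0 • (z1 ^ 2 • ρ * (2 * w' + π ^ m • z1 ^ 2 • ρ)))) -
          (3 : R) • (z1 ^ 2 • ρ * (3 * w' * w + 3 * w' * π ^ (m + 1) • z1 ^ 2 • ρ +
            π ^ m • z1 ^ 2 • ρ * π ^ (m + 1) • z1 ^ 2 • ρ)), ?_⟩
      · refine Submodule.sub_mem _ (Submodule.sub_mem _ hν (Submodule.smul_mem _ _
          (Submodule.add_mem _ (Submodule.smul_mem _ _ (fil_pow hU 2))
            (Submodule.smul_mem _ _ (fil_pow hw1 2))))) (Submodule.smul_mem _ _
          (Submodule.add_mem _ (fil_mono (by norm_num) (fil_pow hU 3))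
            (fil_mono (by norm_num) (fil_pow hw1 3))))
      · rw [h2, hvw, hw']
        simp only [Algebra.smul_def, map_pow]
        ring
  obtain ⟨t, ht, ρ, hρ⟩ := key N
  rw [hρ, pow_succ, hN, zero_mul, zero_smul, add_zero]
  exact ht

end Pool.Agent.Lib.MP_9c5702_nt.TP
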