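import Pool.Agent.Lib.MP_9c5702_nt.TP.Defs

/-! The numerical condition of the determinant step. -/

set_option autoImplicit false

namespace Pool.Agent.Lib.MP_9c5702_nt.TP

open MvPolynomial Pool.Agent.Lib.MP_9c5702_nt.Q4 Pool.Agent.Lib.MP_9c5702_nt.QB
  Pool.Agent.Lib.MP_9c5702_nt.QS Pool.Agent.Lib.MP_9c5702_nt.GL

theorem form_num5 (n B Y E D s g : ℕ) (S U : Finset ℕ) (a β v w : ℕ → ℕ) (hA : Adm2 n S a β)
    (hn : 1 ≤ n) (hB : B ^ 3 ≤ n) (hnY : n ≤ Y ^ E) (hD : 205 * E < D) (hY : 17 ≤ Real.log Y)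
    (hs : 2 * s = 3 * D ^ 2 + 3 * D + 2) (hg : g ≤ D ^ 3 + 2 * D ^ 2) (hU : ∀ p ∈ U, p.Prime)
    (hv : ∀ p ∈ S, (psi (a p) (β p) - ls p) * (D : ℝ) ^ 3 - 201 * β p * (D : ℝ) ^ 2 ≤ v p)
    (hw : (D : ℝ) ^ 3 * (max 0 (mu5 n S a β) + 2 * Real.log Y) ≤
      ∑ p ∈ U, (w p : ℝ) * Real.log p) :
    s ^ s * B ^ g < (∏ p ∈ S, p ^ v p) * ∏ p ∈ U, p ^ w p := by
  have hS : ∀ p ∈ S, p.Prime := fun p hp => (hA p hp).1
  have lp : ∀ p ∈ S, 0 ≤ Real.log p := fun p _ => Real.log_natCast_nonneg p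
  have D1 : 1 ≤ D := by omega
  have s1 : 1 ≤ s := by omega
  have s4 : s ≤ 4 * D ^ 2 := by nlinarith only [hs, D1]
  have n0 : (0 : ℝ) < n := by exact_mod_cast hn
  have s0 : (0 : ℝ) < s := by exact_mod_cast s1
  have d1 : (1 : ℝ) ≤ D := by exact_mod_cast D1
  have dk : 205 * (E : ℝ) < D := by exact_mod_cast hD
  have s4' : (s : ℝ) ≤ 4 * (D : ℝ) ^ 2 := by exact_mod_cast s4
  have g' : (g : ℝ) ≤ (D : ℝ) ^ 3 + 2 * (D : ℝ) ^ 2 := by exact_mod_cast hg
  have d2 : (0 : ℝ) < (D : ℝ) ^ 2 := by positivity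
  have d3 : (0 : ℝ) < (D : ℝ) ^ 3 := by positivity
  have y0 : 0 < Real.log Y := by linarith only [hY]
  have N0 : 0 ≤ Real.log n := Real.log_natCast_nonneg n
  have Ny : Real.log n ≤ E * Real.log Y := by
    rw [← Real.log_pow]
    exact Real.log_le_log n0 (by exact_mod_cast hnY)
  have e1 : (s : ℝ) * Real.log s ≤ 8 * (D : ℝ) ^ 3 := by
    have h1 := Real.log_le_log s0 s4'
    have h2 : Real.log (4 * (D : ℝ) ^ 2) ≤ 2 * D := by
      rw [show 4 * (D : ℝ) ^ 2 = (2 * D) ^ 2 by ring, Real.log_pow,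
        Real.log_mul (by norm_num) (by positivity)]
      have k1 := Real.log_le_sub_one_of_pos (show (0 : ℝ) < 2 by norm_num)
      have k2 := Real.log_le_sub_one_of_pos (show (0 : ℝ) < D by positivity)
      push_cast
      linarith only [k1, k2]
    calc _ ≤ 4 * (D : ℝ) ^ 2 * (2 * D) :=
          mul_le_mul s4' (h1.trans h2) (Real.log_natCast_nonneg s) (by positivity)
      _ = _ := by ring
  have e2 : (B : ℝ) ≤ Real.exp (Real.log n / 3) := by
    refine le_of_pow_le_pow_left₀ (n := 3) (by norm_num) (Real.exp_pos _).le ?_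
    rw [← Real.exp_nat_mul, show ((3 : ℕ) : ℝ) * (Real.log n / 3) = Real.log n by push_cast; ring,
      Real.exp_log n0]
    exact_mod_cast hB
  have e3 : (g : ℝ) * (Real.log n / 3) ≤ ((D : ℝ) ^ 3 + 2 * (D : ℝ) ^ 2) * (Real.log n / 3) :=
    mul_le_mul_of_nonneg_right g' (by positivity)
  have hb := hA.sum_log_le hn
  have e0 : ∑ p ∈ S, ls p * Real.log p ≤ 8 / 3 := by
    have k1 : ∀ p ∈ S, ls p * Real.log p ≤ if p = 3 then 8 / 3 else 0 := by
      intro p _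
      unfold ls
      split_ifs with h3
      · have := Real.log_le_sub_one_of_pos (show (0 : ℝ) < 3 by norm_num)
        rw [h3]
        push_cast
        linarith only [this]
      · rw [zero_mul]
    refine (Finset.sum_le_sum k1).trans ?_
    rw [Finset.sum_ite_eq']
    split_ifs <;> norm_num
  have e4 : (D : ℝ) ^ 3 * (∑ p ∈ S, psi (a p) (β p) * Real.log p) -
      (D : ℝ) ^ 3 * (∑ p ∈ S, ls p * Real.log p) -
      201 * (D : ℝ) ^ 2 * (∑ p ∈ S, (β p : ℝ) * Real.log p) ≤ ∑ p ∈ S, (v p : ℝ) * Real.log p := by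
    rw [Finset.mul_sum, Finset.mul_sum, Finset.mul_sum, ← Finset.sum_sub_distrib,
      ← Finset.sum_sub_distrib]
    refine Finset.sum_le_sum fun p hp => ?_
    have h1 := mul_le_mul_of_nonneg_right (hv p hp) (lp p hp)
    linarith only [h1]
  have m1 : mu5 n S a β ≤ max 0 (mu5 n S a β) := le_max_right _ _
  have m3 : ∑ p ∈ S, psi (a p) (β p) * Real.log p = Real.log n / 3 - mu5 n S a β := by
    rw [mu5]; ring
  have key : (s : ℝ) * Real.log s + g * (Real.log n / 3) <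
      ∑ p ∈ S, (v p : ℝ) * Real.log p + ∑ p ∈ U, (w p : ℝ) * Real.log p := by
    rw [m3] at e4
    have h1 := mul_le_mul_of_nonneg_left hb d2.le
    have h2 := mul_le_mul_of_nonneg_left m1 d3.le
    have h4 := mul_le_mul_of_nonneg_left Ny d2.le
    have h5 := mul_le_mul_of_nonneg_left hY d3.le
    have h6 := mul_nonneg d2.le N0
    have h9 := mul_le_mul_of_nonneg_left e0 d3.le
    have h7 : 205 * ((D : ℝ) ^ 2 * (E * Real.log Y)) ≤ (D : ℝ) ^ 3 * Real.log Y := by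
      have h8 := mul_le_mul_of_nonneg_left dk.le (mul_pos d2 y0).le
      calc _ = (D : ℝ) ^ 2 * Real.log Y * (205 * E) := by ring
        _ ≤ (D : ℝ) ^ 2 * Real.log Y * D := h8
        _ = _ := by ring
    linarith only [e1, e3, e4, hw, h1, h2, h4, h5, h6, h7, h9, d3]
  have P0 : (0 : ℝ) < ((∏ p ∈ S, p ^ v p : ℕ) : ℝ) := by
    exact_mod_cast Finset.prod_pos fun p hp => pow_pos (hS p hp).pos _
  have P1 : (0 : ℝ) < ((∏ p ∈ U, p ^ w p : ℕ) : ℝ) := by
    exact_mod_cast Finset.prod_pos fun p hp => pow_pos (hU p hp).pos _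
  have fin : (s : ℝ) ^ s * (B : ℝ) ^ g <
      ((∏ p ∈ S, p ^ v p : ℕ) : ℝ) * ((∏ p ∈ U, p ^ w p : ℕ) : ℝ) := by
    calc _ ≤ Real.exp (s * Real.log s) * Real.exp (g * (Real.log n / 3)) := by
          rw [Real.exp_nat_mul, Real.exp_nat_mul, Real.exp_log s0]
          gcongr
      _ < Real.exp (∑ p ∈ S, (v p : ℝ) * Real.log p + ∑ p ∈ U, (w p : ℝ) * Real.log p) := by
          rw [← Real.exp_add]
          exact Real.exp_lt_exp.2 key
      _ = _ := by
          rw [Real.exp_add, ← log_prod_pow v hS, Real.exp_log P0, ← log_prod_pow w hU,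
            Real.exp_log P1]
  exact_mod_cast fin

end Pool.Agent.Lib.MP_9c5702_nt.TP
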