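import Pool.Agent.Lib.MP_9c5702_nt.TP.PDiv
import Pool.Agent.Lib.MP_9c5702_nt.TP.FormN
import Pool.Agent.Lib.MP_9c5702_nt.GL.Form

/-! A form of controlled degree vanishes on a class. -/

set_option autoImplicit false

namespace Pool.Agent.Lib.MP_9c5702_nt.TP

open MvPolynomial Pool.Agent.Lib.MP_9c5702_nt.Q4 Pool.Agent.Lib.MP_9c5702_nt.QB
  Pool.Agent.Lib.MP_9c5702_nt.QS Pool.Agent.Lib.MP_9c5702_nt.GL

theorem form5 : ∃ Y1 : ℕ, ∀ (n B Y E D : ℕ) (S R : Finset ℕ) (a β : ℕ → ℕ), Adm2 n S a β →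
    1 ≤ n → B ^ 3 ≤ n → Y1 ≤ Y → 1 ≤ E → E ≤ Y → 3 * n * ∏ l ∈ R, l ≤ Y ^ E → 205 * E < D →
    (∀ l ∈ R, l.Prime ∧ ¬ l ∣ 3 * n) →
    max 0 (mu5 n S a β) + 8 * Real.log Y ≤ √3 * Real.log ((D * ∏ l ∈ R, l : ℕ) : ℝ) →
    ∀ W : Finset V, (∀ P ∈ W, P ∈ Sol n B) → Pw (Crs (3 * (qq S a : ℤ))) W → Pw (Cong 3) W →
    (∀ l ∈ R, Pw (Cong (l : ℤ)) W) →
    ∃ G : PQ, G ≠ 0 ∧ G.IsHomogeneous (3 * D) ∧ ∀ P ∈ W, ev P G = 0 := by
  classical
  obtain ⟨Y1, hgain⟩ := gain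
  refine ⟨Y1, ?_⟩
  intro n B Y E D S R a β hA hn hB hY hE1 hEY hm hD hR hl W hW hp h3 hp'
  obtain ⟨m, hmd⟩ : ∃ m, m = 3 * n * ∏ l ∈ R, l := ⟨_, rfl⟩
  have hRp : ∀ l ∈ R, l.Prime := fun l hl => (hR l hl).1
  have hP1 : 1 ≤ ∏ l ∈ R, l := Finset.prod_pos fun l hl => (hRp l hl).pos
  have hm1 : 3 * n ≤ m := by rw [hmd]; exact Nat.le_mul_of_pos_right _ hP1
  have hD1 : 1 ≤ D := by omega
  have hF : ∀ P ∈ W, F P = n := fun P hP => (hW P hP).2.1
  have hs := low_card D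
  have hg : ∑ r ∈ Low D, dg r ≤ D ^ 3 + 2 * D ^ 2 := by
    have := low_deg D
    nlinarith
  have hcard : Fintype.card (Low D) = (Low D).card := Fintype.card_coe _
  have : Nonempty (Low D) := Fintype.card_pos_iff.1 (by omega)
  have hC := chartK n (qq S a) B ((dvd_pow_self _ (by norm_num)).trans hA.sq_dvd) W hW hp h3
  have hv : ∀ p : ℕ, ∃ v : ℕ, p ∈ S → (β p = 0 → v = 0) ∧
      (psi (a p) (β p) - ls p) * (D : ℝ) ^ 3 - 201 * β p * (D : ℝ) ^ 2 ≤ v ∧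
      ∀ x : Low D → V, (∀ i, x i ∈ W) → (p : ℤ) ^ v ∣ (lowM D x).det := by
    intro p
    by_cases hpS : p ∈ S
    · by_cases h4 : β p ≤ 4 * a p
      · obtain ⟨v, h⟩ := pdiv_t n (qq S a) B p (a p) (β p) D (hA p hpS).1 (hA p hpS).2.1 h4
          (Finset.dvd_prod_of_mem (fun p => p ^ a p) hpS) (hA p hpS).2.2 W hW hp hD1
        refine ⟨v, fun _ => ?_⟩
        rw [psi, if_pos h4]
        exact h
      · obtain ⟨v, h⟩ := pdiv2 (qq S a) n p (by exact_mod_cast (hA p hpS).1.ne_zero) (a p) (β p)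
          (hA p hpS).2.1 (by exact_mod_cast Finset.dvd_prod_of_mem (fun p => p ^ a p) hpS)
          (by exact_mod_cast (hA p hpS).2.2) W hC D hD1
        refine ⟨v, fun _ => ⟨h.1, le_trans ?_ h.2.1, h.2.2⟩⟩
        have h5 : 0 ≤ ls p * (D : ℝ) ^ 3 := by
          unfold ls
          split_ifs <;> positivity
        rw [psi, if_neg h4]
        linarith
    · exact ⟨0, fun h => absurd h hpS⟩
  choose v hv using hv
  have hkk : ∀ p : ℕ, 1 ≤ kk p := fun p => by unfold kk; omega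
  have hw : ∀ p : ℕ, ∃ w τ : ℕ,
      w + ∑ j ∈ Finset.Icc 1 τ, (if p ∈ R then 1 else kk p) ^ 2 * Nb 1 j ≤ τ * (Low D).card ∧
      √3 * (D : ℝ) ^ 3 / ((if p ∈ R then 1 else kk p : ℕ) : ℝ) - 3 * (D : ℝ) ^ 2 ≤ w := fun p =>
    wtK _ D _ (by split_ifs; exacts [le_rfl, hkk p]) hs
  choose w τ hw1 hw2 using hw
  have hGA : ∀ p ∈ GA Y D m, p.Prime ∧ ¬ p ∣ m := fun p hp => (Finset.mem_filter.1 hp).2
  have hRm : (∏ l ∈ R, l) ∣ m := hmd ▸ Dvd.intro_left _ rfl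
  have hnR : ∀ p ∈ GA Y D m, p ∉ R := fun p hp h =>
    (hGA p hp).2 ((Finset.dvd_prod_of_mem (fun l => l) h).trans hRm)
  obtain ⟨hlog, hsum⟩ := hgain Y E D m R w (max 0 (mu5 n S a β)) hY hEY (by omega) (hmd ▸ hm) hRp
    hRm hD hl
    (fun l hl' => by
      have h := hw2 l
      rw [if_pos hl', Nat.cast_one, div_one] at h
      exact h)
    (fun p hp' => by
      have h := hw2 p
      rw [if_neg (hnR p hp')] at h
      exact h)
  have hU : ∀ p ∈ R ∪ GA Y D m, p.Prime ∧ ¬ p ∣ 3 * n := by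
    intro p hp'
    rcases Finset.mem_union.1 hp' with h | h
    · exact hR p h
    · exact ⟨(hGA p h).1, fun h' => (hGA p h).2 (hmd ▸ h'.mul_right _)⟩
  have hco : (∏ p ∈ S, p ^ v p).Coprime (∏ p ∈ R ∪ GA Y D m, p ^ w p) := by
    refine Nat.Coprime.prod_left fun p hpS => Nat.Coprime.prod_right fun l hlU => ?_
    by_cases hpl : p = l
    · have h0 : β p = 0 := by
        by_contra h0
        have h1 : p ∣ n := (dvd_pow_self p h0).trans (hA p hpS).2.2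
        exact (hU l hlU).2 ((hpl ▸ h1 : l ∣ n).mul_left 3)
      rw [(hv p hpS).1 h0, pow_zero]
      exact Nat.coprime_one_left _
    · exact Nat.Coprime.pow _ _ ((Nat.coprime_primes (hA p hpS).1 (hU l hlU).1).2 hpl)
  obtain ⟨c, hc0, hc⟩ := ker_of_det (ι := Low D) W (fun P r => mon r.1 P) fun x hx => by
    have d1 : (∏ p ∈ S, p ^ v p) ∣ (lowM D x).det.natAbs :=
      prod_pow_dvd (fun p hpS => (hA p hpS).1) fun p hpS =>
        Int.natCast_dvd.1 (by exact_mod_cast (hv p hpS).2.2 x hx)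
    have d2 : (∏ p ∈ R ∪ GA Y D m, p ^ w p) ∣ (lowM D x).det.natAbs := by
      refine prod_pow_dvd (fun p hpU => (hU p hpU).1) fun p hpU => Int.natCast_dvd.1 ?_
      have hK : (W.image (rd p)).card ≤ (if p ∈ R then 1 else kk p) ^ 2 := by
        split_ifs with h
        · rw [one_pow]
          exact rd_one p W (hp' p h)
        · exact cnt p (hU p hpU).1 n W hF
      have := gdet p (hU p hpU).1 n (by exact_mod_cast (hU p hpU).2) W hF _ hK D x hx (w p) (τ p)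
        (hw1 p)
      exact_mod_cast this
    refine Int.eq_zero_of_abs_lt_dvd (Int.natCast_dvd.2 (hco.mul_dvd_of_dvd_of_dvd d1 d2)) ?_
    refine lt_of_le_of_lt (det_le_rows _ (fun r : Low D => B ^ dg r.1) fun r i =>
      form_mon_abs B r.1 (x i) (hW _ (hx i)).1) ?_
    rw [Finset.prod_pow_eq_pow_sum, Finset.sum_coe_sort (Low D) dg, hcard]
    exact_mod_cast form_num5 n B Y E D _ _ S (R ∪ GA Y D m) a β v w hA hn hB
      (by have := hmd ▸ hm; omega) hD hlog hs hg (fun p hpU => (hU p hpU).1)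
      (fun p hpS => (hv p hpS).2.1) hsum
  obtain ⟨G, hG0, hG, hGv⟩ :=
    norm_form n (by exact_mod_cast (by omega : n ≠ 0)) D (by omega) W hF c hc0 hc
  refine ⟨map (Int.castRingHom ℚ) G, fun h => hG0 ?_, hG.map _, fun P hP => ?_⟩
  · exact map_injective (Int.castRingHom ℚ) Int.cast_injective (by rw [h, map_zero])
  · have h1 := eval₂_comp (Int.castRingHom ℚ) P G
    rw [hGv P hP, map_zero] at h1
    rw [ev, eval_map]
    exact h1.symm

end Pool.Agent.Lib.MP_9c5702_nt.TP
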