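import Pool.Agent.Lib.MP_9c5702_nt.TP.Main

/-! The bound with the tangent plane exponent gives the earlier bound. -/

set_option autoImplicit false

namespace Pool.Agent.Lib.MP_9c5702_nt.TP

open MvPolynomial Pool.Agent.Lib.MP_9c5702_nt.Q4 Pool.Agent.Lib.MP_9c5702_nt.QB
  Pool.Agent.Lib.MP_9c5702_nt.QS Pool.Agent.Lib.MP_9c5702_nt.GL

theorem implies_old (ε : ℝ) (hε : 0 < ε) : ∃ C : ℝ, ∀ (n q : ℕ) (b : ℕ → ℕ) (M : ℝ), 1 ≤ n →
    1 ≤ q → (∀ p ∈ q.primeFactors, 2 * q.factorization p ≤ b p ∧ p ^ b p ∣ n) → 1 ≤ M →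
    (n : ℝ) ^ ((1 : ℝ) / 3) * ∏ p ∈ q.primeFactors,
        (p : ℝ) ^ ((b p : ℝ) / 6 - √((q.factorization p : ℝ) * b p)) ≤ M →
    (r33 n : ℝ) ≤ C * (n : ℝ) ^ ε * q * M ^ (1 / √3) *
      max (M ^ (1 / √3)) (((n : ℝ) / (q : ℝ) ^ 3) ^ ((1 : ℝ) / 6)) := by
  obtain ⟨C, hC⟩ := main5 ε hε
  refine ⟨C, fun n q b M hn hq h hM1 hM2 => hC n q b M hn hq h hM1 (le_trans ?_ hM2)⟩
  refine mul_le_mul_of_nonneg_left (Finset.prod_le_prod (fun p _ => by positivity) fun p hp => ?_)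
    (by positivity)
  have hp1 : (1 : ℝ) ≤ p := by exact_mod_cast (Nat.prime_of_mem_primeFactors hp).one_le
  refine Real.rpow_le_rpow_of_exponent_le hp1 ?_
  have := psi_am (q.factorization p) (b p)
  unfold phi at this
  split_ifs <;> linarith

end Pool.Agent.Lib.MP_9c5702_nt.TP
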