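import Pool.Agent.Lib.MP_9c5702_nt.TP.Alg
import Pool.Agent.Lib.MP_9c5702_nt.TP.Cnt

/-! The power of one prime in the determinant of low monomials. -/

set_option autoImplicit false

namespace Pool.Agent.Lib.MP_9c5702_nt.TP

open MvPolynomial Pool.Agent.Lib.MP_9c5702_nt.Q4 Pool.Agent.Lib.MP_9c5702_nt.QB
  Pool.Agent.Lib.MP_9c5702_nt.QS Pool.Agent.Lib.MP_9c5702_nt.GL

lemma pdiv_prim {p : ℕ} (hp : p.Prime) {P : V} (hP : Prim P) : ¬ ∀ k, (p : ℤ) ∣ P k := by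
  intro h
  obtain ⟨e, he⟩ := hP
  have : (p : ℤ) ∣ 1 := by
    rw [← he]
    exact dvd_add (dvd_add ((h 0).mul_left _) ((h 1).mul_left _)) ((h 2).mul_left _)
  exact (Nat.prime_iff_prime_int.1 hp).not_dvd_one this

lemma pdiv_perm {p : ℕ} (hp : p.Prime) {P : V} (hP : Prim P) (hF : (p : ℤ) ∣ F P) :
    ∃ kx ky kz : Fin 3, (∀ k, k = kx ∨ k = ky ∨ k = kz) ∧
      (∀ Q : V, F Q = Q kx ^ 3 + Q ky ^ 3 + Q kz ^ 3) ∧ ¬ (p : ℤ) ∣ P kx ∧ ¬ (p : ℤ) ∣ P kz := by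
  have hp' := Nat.prime_iff_prime_int.1 hp
  have hn := pdiv_prim hp hP
  have key : ∀ x y z : ℤ, (p : ℤ) ∣ x ^ 3 + y ^ 3 + z ^ 3 → (p : ℤ) ∣ x → (p : ℤ) ∣ y →
      (p : ℤ) ∣ z := fun x y z h h1 h2 =>
    hp'.dvd_of_dvd_pow ((dvd_add_right (dvd_add (dvd_pow h1 three_ne_zero)
      (dvd_pow h2 three_ne_zero))).1 h)
  have all : (p : ℤ) ∣ P 0 → (p : ℤ) ∣ P 1 → (p : ℤ) ∣ P 2 → False := fun h0 h1 h2 =>
    hn fun k => by fin_cases k <;> assumption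
  unfold F at hF
  by_cases h0 : (p : ℤ) ∣ P 0
  · refine ⟨1, 0, 2, by decide, fun Q => by unfold F; ring, fun h1 => ?_, fun h2 => ?_⟩
    · exact all h0 h1 (key _ _ _ hF h0 h1)
    · exact all h0 (key (P 0) (P 2) (P 1) (by convert hF using 1; ring) h0 h2) h2
  · by_cases h1 : (p : ℤ) ∣ P 1
    · refine ⟨0, 1, 2, by decide, fun Q => rfl, h0, fun h2 => ?_⟩
      exact h0 (key (P 1) (P 2) (P 0) (by convert hF using 1; ring) h1 h2)
    · exact ⟨0, 2, 1, by decide, fun Q => by unfold F; ring, h0, h1⟩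

lemma pdiv_inv {p : ℕ} (hp : p.Prime) (N : ℕ) {x : ℤ} (hx : ¬ (p : ℤ) ∣ x) :
    ∃ y : ZMod (p ^ N), y * (x : ZMod (p ^ N)) = 1 := by
  have h : IsCoprime x ((p : ℤ) ^ N) :=
    (((Nat.prime_iff_prime_int.1 hp).irreducible.coprime_iff_not_dvd).2 hx).symm.pow_right
  obtain ⟨u, v, huv⟩ := h
  refine ⟨u, ?_⟩
  have h1 := congrArg (Int.cast : ℤ → ZMod (p ^ N)) huv
  have h2 : ((p : ZMod (p ^ N))) ^ N = 0 := by rw [← Nat.cast_pow, ZMod.natCast_self]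
  push_cast at h1
  rw [h2] at h1
  linear_combination h1

theorem pdiv_t0 (n B p a b N D : ℕ) (hp : p.Prime) (ha : 1 ≤ a) (hab : 2 * a ≤ b)
    (hc : Cn a b D N) (hn : (p ≠ 3 ∧ p ^ b ∣ n) ∨ (p = 3 ∧ 3 ^ (b + 2) ∣ n)) (W : Finset V)
    (hW : ∀ P ∈ W, P ∈ Sol n B) (hq : Pw (Crs (3 * (p : ℤ) ^ a)) W) (x : Low D → V)
    (hx : ∀ i, x i ∈ W) : (p : ℤ) ^ N ∣ (lowM D x).det := by
  have r0 : Low D := ⟨(0, 0, 0), mem_Low.2 ⟨by simp, by simp [dg]⟩⟩
  obtain ⟨P0, hP0⟩ : ∃ P0, P0 ∈ W := ⟨_, hx r0⟩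
  have hpn : (p : ℤ) ∣ F P0 := by
    rw [(hW P0 hP0).2.1]
    rcases hn with h | h
    · exact Int.natCast_dvd_natCast.2 ((dvd_pow_self p (by omega)).trans h.2)
    · exact Int.natCast_dvd_natCast.2 (h.1 ▸ (dvd_pow_self 3 (by omega)).trans h.2)
  obtain ⟨kx, ky, kz, hk, hF, ux, uz⟩ := pdiv_perm hp (hW P0 hP0).2.2 hpn
  have hU : ∀ i, ∃ U : ℤ, P0 kx * x i ky - P0 ky * x i kx = 3 * (p : ℤ) ^ a * U :=
    fun i => hq P0 hP0 _ (hx i) kx ky
  have hV : ∀ i, ∃ U : ℤ, P0 kx * x i kz - P0 kz * x i kx = 3 * (p : ℤ) ^ a * U :=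
    fun i => hq P0 hP0 _ (hx i) kx kz
  choose U hU using hU
  choose V' hV using hV
  have hp' := Nat.prime_iff_prime_int.1 hp
  have hpa : (p : ℤ) ∣ (p : ℤ) ^ a := dvd_pow_self _ (by omega)
  have hA : ∀ i, ¬ (p : ℤ) ∣ x i kx := by
    intro i h
    have g : ∀ (k : Fin 3) (w : ℤ), P0 kx * x i k - P0 k * x i kx = 3 * (p : ℤ) ^ a * w →
        (p : ℤ) ∣ x i k := by
      intro k w e
      have : (p : ℤ) ∣ P0 kx * x i k := by
        rw [eq_add_of_sub_eq e]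
        exact dvd_add ((hpa.mul_left 3).mul_right w) (h.mul_left _)
      exact (hp'.dvd_or_dvd this).resolve_left ux
    refine pdiv_prim hp (hW _ (hx i)).2.2 fun k => ?_
    rcases hk k with rfl | rfl | rfl
    · exact h
    · exact g _ _ (hU i)
    · exact g _ _ (hV i)
  obtain ⟨x1, hx1⟩ := pdiv_inv hp N ux
  obtain ⟨z1, hz1⟩ := pdiv_inv hp N uz
  choose τ hτ using fun i => pdiv_inv hp N (hA i)
  have hν : ∃ ν : ZMod (p ^ N), ∀ E1 E2 E3 : ℤ, 9 * E1 = n * E2 - 9 * E3 →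
      (E1 : ZMod (p ^ N)) = (p : ZMod (p ^ N)) ^ b * ν * E2 - E3 := by
    rcases hn with ⟨h3, m, hm⟩ | ⟨h3, m, hm⟩
    · have h9 : ¬ (p : ℤ) ∣ 9 := by
        intro h
        have h' : p ∣ 3 ^ 2 := by exact_mod_cast h
        exact h3 ((Nat.prime_dvd_prime_iff_eq hp Nat.prime_three).1 (hp.dvd_of_dvd_pow h'))
      obtain ⟨w, hw⟩ := pdiv_inv hp N h9
      refine ⟨w * m, fun E1 E2 E3 h => ?_⟩
      have h1 := congrArg (Int.cast : ℤ → ZMod (p ^ N)) h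
      rw [hm] at h1
      push_cast at h1 hw
      linear_combination w * h1 - ((E1 : ZMod (p ^ N)) + E3) * hw
    · refine ⟨m, fun E1 E2 E3 h => ?_⟩
      have h0 : E1 = (p : ℤ) ^ b * m * E2 - E3 := by
        rw [hm] at h
        rw [h3]
        push_cast at h ⊢
        rw [pow_add] at h
        linarith
      rw [h0]
      push_cast
      rfl
  obtain ⟨ν, hν⟩ := hν
  have hN : ((p : ZMod (p ^ N))) ^ N = 0 := by rw [← Nat.cast_pow, ZMod.natCast_self]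
  have key := alg_det (p : ZMod (p ^ N)) a b N D ha hab hN hc (P0 kx) (P0 ky) (P0 kz) x1 z1 ν hx1
    hz1 (fun i => x i kx) τ (fun i => U i) (fun i => V' i) (fun i => (mul_comm _ _).trans (hτ i))
    (fun k i => x i k) (fun k => by
      rcases hk k with rfl | rfl | rfl
      · exact Or.inl fun _ => rfl
      · refine Or.inr (Or.inl fun i => ?_)
        have h1 := congrArg (Int.cast : ℤ → ZMod (p ^ N)) (hU i)
        push_cast at h1
        linear_combination h1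
      · refine Or.inr (Or.inr fun i => ?_)
        have h1 := congrArg (Int.cast : ℤ → ZMod (p ^ N)) (hV i)
        push_cast at h1
        linear_combination h1) (fun i => by
      have f0 : P0 kx ^ 3 + P0 ky ^ 3 + P0 kz ^ 3 = n := (hF P0).symm.trans (hW P0 hP0).2.1
      have f1 : x i kx ^ 3 + x i ky ^ 3 + x i kz ^ 3 = n :=
        (hF _).symm.trans (hW _ (hx i)).2.1
      have g1 : P0 kx * x i ky = P0 ky * x i kx + 3 * ((p : ℤ) ^ a * U i) := by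
        linear_combination hU i
      have g2 : P0 kx * x i kz = P0 kz * x i kx + 3 * ((p : ℤ) ^ a * V' i) := by
        linear_combination hV i
      have g3 : (P0 kx * x i kx) ^ 3 + (P0 kx * x i ky) ^ 3 + (P0 kx * x i kz) ^ 3 =
          P0 kx ^ 3 * n := by linear_combination P0 kx ^ 3 * f1
      rw [g1, g2] at g3
      have h := hν (x i kx ^ 2 * (P0 ky ^ 2 * ((p : ℤ) ^ a * U i) + P0 kz ^ 2 * ((p : ℤ) ^ a * V' i)))
        (P0 kx ^ 3 - x i kx ^ 3)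
        (3 * x i kx * (P0 ky * ((p : ℤ) ^ a * U i) ^ 2 + P0 kz * ((p : ℤ) ^ a * V' i) ^ 2) +
          3 * (((p : ℤ) ^ a * U i) ^ 3 + ((p : ℤ) ^ a * V' i) ^ 3))
        (by linear_combination g3 - x i kx ^ 3 * f0)
      push_cast at h
      linear_combination h)
  have e : ((lowM D x).det : ZMod (p ^ N)) = 0 := by
    rw [← key, Int.cast_det]
    congr 1
    ext r i
    simp [lowM, mon]
  have := (ZMod.intCast_zmod_eq_zero_iff_dvd _ _).1 e
  exact_mod_cast this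

theorem pdiv_t (n q B p a b D : ℕ) (hp : p.Prime) (hab : 2 * a ≤ b) (hba : b ≤ 4 * a)
    (hq : p ^ a ∣ q) (hn : p ^ b ∣ n) (W : Finset V) (hW : ∀ P ∈ W, P ∈ Sol n B)
    (hc : Pw (Crs (3 * (q : ℤ))) W) (hD : 1 ≤ D) :
    ∃ v : ℕ, (b = 0 → v = 0) ∧
      ((a : ℝ) + (b : ℝ) / 12 - ls p) * (D : ℝ) ^ 3 - 201 * b * (D : ℝ) ^ 2 ≤ v ∧
      ∀ x : Low D → V, (∀ i, x i ∈ W) → (p : ℤ) ^ v ∣ (lowM D x).det := by
  have hD0 : (0 : ℝ) ≤ (D : ℝ) ^ 3 := by positivity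
  have hD2 : (0 : ℝ) ≤ (D : ℝ) ^ 2 := by positivity
  have hb0 : (0 : ℝ) ≤ b := Nat.cast_nonneg _
  have hcr : ∀ a', a' ≤ a → Pw (Crs (3 * (p : ℤ) ^ a')) W := by
    intro a' h P hP P' hP' i j
    refine Dvd.dvd.trans (mul_dvd_mul_left 3 ?_) (hc P hP P' hP' i j)
    exact_mod_cast (pow_dvd_pow p h).trans hq
  have triv : (a : ℝ) + (b : ℝ) / 12 - ls p ≤ 0 → ∃ v : ℕ, (b = 0 → v = 0) ∧
      ((a : ℝ) + (b : ℝ) / 12 - ls p) * (D : ℝ) ^ 3 - 201 * b * (D : ℝ) ^ 2 ≤ v ∧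
      ∀ x : Low D → V, (∀ i, x i ∈ W) → (p : ℤ) ^ v ∣ (lowM D x).det := by
    intro h
    refine ⟨0, fun _ => rfl, ?_, fun x _ => by rw [pow_zero]; exact one_dvd _⟩
    have k1 := mul_nonpos_of_nonpos_of_nonneg h hD0
    have k2 := mul_nonneg hb0 hD2
    rw [Nat.cast_zero]
    linarith
  by_cases h3 : p = 3
  · have hl : ls p = 4 / 3 := if_pos h3
    by_cases h1 : a ≤ 1
    · refine triv ?_
      have k1 : (a : ℝ) ≤ 1 := by exact_mod_cast h1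
      have k2 : (b : ℝ) ≤ 4 := by exact_mod_cast (by omega : b ≤ 4)
      linarith
    · obtain ⟨a', rfl⟩ : ∃ a', a = a' + 1 := ⟨a - 1, by omega⟩
      obtain ⟨b', hb'⟩ : ∃ b', b' = min (b - 2) (4 * a') := ⟨_, rfl⟩
      obtain ⟨N, hN, hC⟩ := tp_count a' b' D (by omega) (by omega) (by omega) hD
      refine ⟨N, fun h => by omega, le_trans ?_ hN, fun x hx => ?_⟩
      · have k1 : (b : ℝ) ≤ b' + 4 := by exact_mod_cast (by omega : b ≤ b' + 4)
        have k2 : (b' : ℝ) ≤ b := by exact_mod_cast (by omega : b' ≤ b)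
        have k3 := mul_le_mul_of_nonneg_right k1 hD0
        have k4 := mul_le_mul_of_nonneg_right k2 hD2
        rw [hl]
        push_cast
        linarith
      · exact pdiv_t0 n B p a' b' N D hp (by omega) (by omega) hC
          (Or.inr ⟨h3, h3 ▸ (pow_dvd_pow p (by omega)).trans hn⟩) W hW (hcr _ (by omega)) x hx
  · have hl : ls p = 0 := if_neg h3
    by_cases h1 : a = 0
    · refine triv ?_
      rw [hl, h1, show b = 0 by omega]
      simp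
    · obtain ⟨N, hN, hC⟩ := tp_count a b D (by omega) hab hba hD
      refine ⟨N, fun h => by omega, by rw [hl, sub_zero]; exact hN, fun x hx => ?_⟩
      exact pdiv_t0 n B p a b N D hp (by omega) hab hC (Or.inl ⟨h3, hn⟩) W hW (hcr _ le_rfl) x hx

end Pool.Agent.Lib.MP_9c5702_nt.TP
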